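import Pool.Agent.Lib.MP_e3c3cf_lc.Count

/-!
The names for the atoms, the set `A`, its square, its partitions and the surjection.
-/

namespace Pool.Agent.Lib.MP_e3c3cf_lc

open Name

section general
variable {P : Type} [Preorder P]

lemma feq_reindex' {ι κ : Type} {f : ι → Name P} {v : ι → LowerSet P} {f' : κ → Name P}
    {v' : κ → LowerSet P} (e : ι ≃ κ) (hf : ∀ i p, feq (f i) (f' (e i)) p)
    (hv : ∀ i, v' (e i) = v i) (p : P) : feq (.mk ι f v) (.mk κ f' v') p := by
  constructor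
  · intro i q _ hi
    exact ⟨q, le_rfl, e i, by rwa [hv], hf i q⟩
  · intro j q _ hj
    obtain ⟨i, rfl⟩ := e.surjective j
    exact ⟨q, le_rfl, i, by rwa [hv] at hj, hf i q⟩

lemma upairN_congr {x x' y y' : Name P} (h1 : ∀ p, feq x x' p) (h2 : ∀ p, feq y y' p) (p : P) :
    feq (upairN x y) (upairN x' y') p := by
  unfold upairN
  refine feq_reindex' (Equiv.refl Bool) (fun b q => ?_) (fun _ => ?_) p
  · cases b
    exacts [h2 q, h1 q]
  · rfl

lemma opairN_congr {x x' y y' : Name P} (h1 : ∀ p, feq x x' p) (h2 : ∀ p, feq y y' p) (p : P) :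
    feq (opairN x y) (opairN x' y') p :=
  upairN_congr (upairN_congr h1 h1) (upairN_congr h1 h2) p

end general

abbrev HN : Type 1 := HSName Grp Cond

def w0 : Val := ⟨[], ⟨0, (0 : ℕ)⟩⟩
def w1 : Val := ⟨[], ⟨0, (1 : ℕ)⟩⟩

lemma w0_ne_w1 : w0 ≠ w1 := by
  intro h
  have h1 : w0.c = w1.c := by rw [h]
  have h2 : (0 : ℕ) = 1 := sigma_mk_injective (β := Lev) (i := 0) h1
  omega

lemma ok_w0 (d : Idx) : Ok d w0 := ⟨by simp [w0], Nat.zero_le _⟩
lemma ok_w1 (d : Idx) : Ok d w1 := ⟨by simp [w1], Nat.zero_le _⟩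

lemma smul_w0 (g : Grp) : g • w0 = w0 := rfl

def entry (d : Idx) (w : Val) : LowerSet Cond :=
  ⟨{p | p.fn d = some w}, fun _ _ h hp => h _ _ hp⟩

lemma mem_entry {d : Idx} {w : Val} {p : Cond} : p ∈ entry d w ↔ p.fn d = some w := Iff.rfl

lemma actL_entry (g : Grp) (d : Idx) (w : Val) : actL g (entry d w) = entry (g • d) (g • w) := by
  ext p
  simp only [SetLike.mem_coe, mem_actL, mem_entry, smul_fn_eq_some, inv_inv]

def atomN (a : Atom) : Name Cond := .mk ℕ natN (fun n => entry (.bit a n) w0)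

lemma smul_atomN (g : Grp) (a : Atom) : g • atomN a = atomN (g • a) := by
  simp only [atomN, smul_mk, smul_natN, actL_entry, smul_bit, smul_w0]

lemma HS_atomN (a : Atom) : HS Grp (atomN a) := by
  refine (HS_iff _).mpr ⟨mem_F.mpr ⟨[a], fun g hg p => feq.of_eq ?_ p⟩, HS_natN⟩
  rw [smul_atomN, smul_list_self_iff.mp hg a (by simp)]

lemma exists_fresh (p : Cond) (f : ℕ → Idx) (hf : Function.Injective f) :
    {n | p.fn (f n) ≠ none}.Finite := p.fin.preimage hf.injOn

lemma atomN_inj {a b : Atom} {p : Cond} (h : feq (atomN a) (atomN b) p) : a = b := by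
  by_contra hab
  have h1 := exists_fresh p (Idx.bit a) (fun _ _ h => by simpa using h)
  have h2 := exists_fresh p (Idx.bit b) (fun _ _ h => by simpa using h)
  obtain ⟨n, hn⟩ := (h1.union h2).exists_notMem
  simp only [Set.mem_union, Set.mem_ofPred_eq, not_or, not_not] at hn
  obtain ⟨q, hq, hq1, hq2⟩ := exists_extend p _ w0 (ok_w0 _) hn.1
  have h3 : q.fn (.bit b n) = none := by
    rw [hq2 _ (by simpa using Ne.symm hab), hn.2]
  obtain ⟨r, hr, hr1, _⟩ := exists_extend q _ w1 (ok_w1 _) h3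
  obtain ⟨s, hs, m, hm, e⟩ := h.1 n r (hr.trans hq) (hr _ _ hq1)
  obtain rfl := natN_inj e
  have h4 := hs _ _ hr1
  rw [mem_entry.mp hm] at h4
  exact w0_ne_w1 (Option.some.inj h4)

def setAN : Name Cond := .mk Atom atomN (fun _ => ⊤)

lemma mem_F_univ {S : Set Grp} (h : ∀ g, g ∈ S) : S ∈ SymSys.F (Γ := Grp) (P := Cond) :=
  mem_F.mpr ⟨[], fun g _ => h g⟩

lemma HS_setAN : HS Grp setAN := by
  refine (HS_iff _).mpr ⟨mem_F_univ fun g p => ?_, HS_atomN⟩
  rw [setAN, smul_mk]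
  exact feq_reindex (MulAction.toPerm g) (fun a => (smul_atomN g a).symm)
    (fun _ => (actL_top g).symm) p

def relL (u : FEq) (a b : Atom) : LowerSet Cond :=
  ⟨{p | u.rel a b p}, fun _ _ h hp => u.mono hp h⟩

lemma actL_relL (g : Grp) (u : FEq) (a b : Atom) :
    actL g (relL u a b) = relL (g • u) (g • a) (g • b) := by
  ext p
  show u.rel a b (g⁻¹ • p) ↔ (g • u).rel (g • a) (g • b) p
  rw [smul_rel]; simp

def clsN (u : FEq) (b : Atom) : Name Cond := .mk Atom atomN (relL u b)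

lemma smul_clsN (g : Grp) (u : FEq) (b : Atom) (p : Cond) :
    feq (g • clsN u b) (clsN (g • u) (g • b)) p := by
  rw [clsN, smul_mk]
  exact feq_reindex (MulAction.toPerm g) (fun a => (smul_atomN g a).symm)
    (fun a => (actL_relL g u b a).symm) p

lemma HS_clsN {u : FEq} {s : List Atom} (hs : Supp s u) (b : Atom) : HS Grp (clsN u b) := by
  refine (HS_iff _).mpr ⟨mem_F.mpr ⟨b :: s, fun g hg p => ?_⟩, HS_atomN⟩
  rw [smul_list_self_iff] at hg
  have := smul_clsN g u b p
  rwa [hg b (by simp), hs g (smul_list_self_iff.mpr fun x hx => hg x (by simp [hx]))] at this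

def partN (u : FEq) : Name Cond := .mk Atom (clsN u) (fun _ => ⊤)

lemma smul_partN (g : Grp) (u : FEq) (p : Cond) : feq (g • partN u) (partN (g • u)) p := by
  rw [partN, smul_mk]
  exact feq_reindex' (MulAction.toPerm g) (fun a => smul_clsN g u a)
    (fun _ => (actL_top g).symm) p

lemma HS_partN {u : FEq} {s : List Atom} (hs : Supp s u) : HS Grp (partN u) := by
  refine (HS_iff _).mpr ⟨mem_F.mpr ⟨s, fun g hg p => ?_⟩, HS_clsN hs⟩
  have := smul_partN g u p
  rwa [hs g hg] at this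

def sqN (a b : Atom) : Name Cond := opairN (atomN a) (atomN b)

lemma smul_sqN (g : Grp) (a b : Atom) : g • sqN a b = sqN (g • a) (g • b) := by
  simp only [sqN, smul_opairN, smul_atomN]

lemma HS_sqN (a b : Atom) : HS Grp (sqN a b) := HS_opairN (HS_atomN a) (HS_atomN b)

def squareN : Name Cond := .mk (Atom × Atom) (fun z => sqN z.1 z.2) (fun _ => ⊤)

lemma HS_squareN : HS Grp squareN := by
  refine (HS_iff _).mpr ⟨mem_F_univ fun g p => ?_, fun z => HS_sqN z.1 z.2⟩
  rw [squareN, smul_mk]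
  exact feq_reindex (MulAction.toPerm g) (fun z => (smul_sqN g z.1 z.2).symm)
    (fun _ => (actL_top g).symm) p

/-- An equivariant family of enumerations of the supported equivalence relations. -/
structure Enum where
  h : List Atom → Col → FEq
  equiv : ∀ (g : Grp) s ξ, h (g • s) ξ = g • h s ξ
  surj : ∀ s u, Supp s u → ∃ ξ, h s ξ = u

namespace Enum

variable (H : Enum)

def val (w : Val) : FEq := H.h w.t w.c

lemma val_smul (g : Grp) (w : Val) : H.val (g • w) = g • H.val w := H.equiv g w.t w.c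

lemma supp_val (w : Val) : Supp w.t (H.val w) := by
  intro g hg
  rw [val, ← H.equiv, hg]

lemma HS_part (w : Val) : HS Grp (partN (H.val w)) := HS_partN (H.supp_val w)

def rangeN : Name Cond :=
  .mk (Atom × Atom × Val) (fun z => partN (H.val z.2.2)) (fun z => entry (.pair z.1 z.2.1) z.2.2)

lemma HS_rangeN : HS Grp H.rangeN := by
  refine (HS_iff _).mpr ⟨mem_F_univ fun g p => ?_, fun z => H.HS_part z.2.2⟩
  rw [rangeN, smul_mk]
  refine feq_reindex' (MulAction.toPerm g : Equiv.Perm (Atom × Atom × Val)) (fun z q => ?_)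
    (fun z => (actL_entry g (.pair z.1 z.2.1) z.2.2).symm) p
  have := smul_partN g (H.val z.2.2) q
  rwa [← H.val_smul] at this

def funN : Name Cond :=
  .mk (Atom × Atom × Val) (fun z => opairN (sqN z.1 z.2.1) (partN (H.val z.2.2)))
    (fun z => entry (.pair z.1 z.2.1) z.2.2)

lemma HS_funN : HS Grp H.funN := by
  refine (HS_iff _).mpr ⟨mem_F_univ fun g p => ?_,
    fun z => HS_opairN (HS_sqN _ _) (H.HS_part z.2.2)⟩
  rw [funN, smul_mk]
  refine feq_reindex' (MulAction.toPerm g : Equiv.Perm (Atom × Atom × Val)) (fun z q => ?_)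
    (fun z => (actL_entry g (.pair z.1 z.2.1) z.2.2).symm) p
  rw [smul_opairN, smul_sqN]
  refine opairN_congr (feq.refl _) (fun r => ?_) q
  have := smul_partN g (H.val z.2.2) r
  rwa [← H.val_smul] at this

end Enum

/-- `r` forces the elements of `x` to be pairwise disjoint. -/
def good (x : HN) (r : Cond) : Prop :=
  ∀ q ≤ r, ∀ y y' w : HN, fmem y.1 x.1 q → fmem y'.1 x.1 q → fmem w.1 y.1 q → fmem w.1 y'.1 q →
    feq y.1 y'.1 q

lemma good.mono {x : HN} {r q : Cond} (h : good x r) (hq : q ≤ r) : good x q :=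
  fun s hs => h s (hs.trans hq)

lemma good.smul {x : HN} {r : Cond} {g : Grp} (hg : g ∈ sym Grp x.1) (h : good x r) :
    good x (g • r) := by
  intro q hq y y' w h1 h2 h3 h4
  have := h (g⁻¹ • q) ((le_smul_iff g).mp hq) (g⁻¹ • y) (g⁻¹ • y') (g⁻¹ • w)
    (fmem_smul_of_sym (inv_mem_sym hg) h1) (fmem_smul_of_sym (inv_mem_sym hg) h2)
    (h3.smul g⁻¹) (h4.smul g⁻¹)
  simpa using this.smul g

def atomH (a : Atom) : HN := ⟨atomN a, HS_atomN a⟩

/-- The equivalence relation on the atoms induced by a name. -/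
def uOf (x : HN) : FEq where
  rel a b p := Dn (fun r => a = b ∨ (good x r ∧ ∃ y : HN, fmem y.1 x.1 r ∧
    fmem (atomN a) y.1 r ∧ fmem (atomN b) y.1 r)) p
  mono h hq := h.mono hq
  reg h := h.of_dn
  refl _ _ := Dn.of_all fun _ _ => Or.inl rfl
  symm h := h.imp fun _ _ h => h.imp Eq.symm fun ⟨h1, y, h2, h3, h4⟩ => ⟨h1, y, h2, h4, h3⟩
  trans := by
    intro a b c p h h' q hq
    obtain ⟨r, hr, h1⟩ := h q hq
    obtain ⟨s, hs, h2⟩ := h' r (hr.trans hq)
    refine ⟨s, hs.trans hr, ?_⟩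
    rcases h1 with rfl | ⟨g1, y, a1, a2, a3⟩
    · exact h2
    rcases h2 with rfl | ⟨g2, y', b1, b2, b3⟩
    · exact Or.inr ⟨g1.mono hs, y, a1.mono hs, a2.mono hs, a3.mono hs⟩
    have e := g2 s le_rfl y y' (atomH b) (a1.mono hs) b1 (a3.mono hs) b2
    exact Or.inr ⟨g2, y', b1, (a2.mono hs).congr_right e, b3⟩

lemma uOf_smul {x : HN} {g : Grp} (hg : g ∈ sym Grp x.1) {a b : Atom} {p : Cond}
    (h : (uOf x).rel a b p) : (uOf x).rel (g • a) (g • b) (g • p) := by
  refine Dn.smul g h ?_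
  rintro r (rfl | ⟨h1, y, h2, h3, h4⟩)
  · exact Or.inl rfl
  · refine Or.inr ⟨h1.smul hg, g • y, fmem_smul_of_sym hg h2, ?_, ?_⟩
    · rw [← smul_atomN]; exact h3.smul g
    · rw [← smul_atomN]; exact h4.smul g

lemma exists_supp_uOf (x : HN) : ∃ s, Supp s (uOf x) := by
  obtain ⟨s, hs⟩ := mem_F.mp x.2.sym_mem
  refine ⟨s, fun g hg => ?_⟩
  apply FEq.ext; funext a b p
  apply propext
  rw [smul_rel]
  constructor
  · intro h; simpa using uOf_smul (hs g hg) h
  · exact uOf_smul (inv_mem_sym (hs g hg))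

lemma dense_total (a b : Atom) (q : Cond) : ∃ r ≤ q, ∃ w, r.fn (.pair a b) = some w := by
  cases h : q.fn (.pair a b) with
  | some w => exact ⟨q, le_rfl, w, h⟩
  | none =>
    obtain ⟨r, hr, h1, _⟩ := exists_extend q _ w0 (ok_w0 _) h
    exact ⟨r, hr, w0, h1⟩

lemma dense_value (w : Val) (q : Cond) : ∃ r ≤ q, ∃ a b, r.fn (.pair a b) = some w := by
  obtain ⟨N, hN⟩ := (w.t.finite_toSet.image Prod.fst).bddAbove
  set n := max (N + 1) w.c.1 with hn
  obtain ⟨i, hi⟩ := (exists_fresh q (fun i => .pair (n, i) (n, i + 1))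
    (fun _ _ h => by simpa using h)).exists_notMem
  simp only [Set.mem_ofPred_eq, not_not] at hi
  have hb : (Idx.pair (n, i) (n, i + 1)).bound = n := by simp [Idx.bound]
  have hok : Ok (.pair (n, i) (n, i + 1)) w := by
    refine ⟨fun x hx => ?_, by rw [hb]; exact le_max_right _ _⟩
    have := hN (Set.mem_image_of_mem _ hx)
    rw [hb]; omega
  obtain ⟨r, hr, h1, _⟩ := exists_extend q _ w hok hi
  exact ⟨r, hr, _, _, h1⟩

end Pool.Agent.Lib.MP_e3c3cf_lc
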