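import Pool.Agent.Lib.MP_e3c3cf_lc.Model

/-!
The forcing: ranked atoms, finite conditions that assign to each pair of atoms a list of atoms of
lower rank and a colour of bounded level, and rank preserving permutations with finite supports.
-/

namespace Pool.Agent.Lib.MP_e3c3cf_lc

abbrev Atom : Type := ℕ × ℕ

/-- The iterated power sets of the natural numbers. -/
def Lev : ℕ → Type
  | 0 => ℕ
  | n + 1 => Set (Lev n)

abbrev Col : Type := Σ n, Lev n

inductive Idx : Type
  | pair (a b : Atom) : Idx
  | bit (a : Atom) (n : ℕ) : Idx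
  deriving DecidableEq

@[ext] structure Val : Type where
  t : List Atom
  c : Col

def Idx.bound : Idx → ℕ
  | .pair a b => if a = b then 0 else min a.1 b.1
  | .bit _ _ => 0

def Idx.atoms : Idx → Set Atom
  | .pair a b => {a, b}
  | .bit a _ => {a}

def Ok (d : Idx) (w : Val) : Prop := (∀ x ∈ w.t, x.1 < d.bound) ∧ w.c.1 ≤ d.bound

@[ext] structure Cond : Type where
  fn : Idx → Option Val
  fin : {d | fn d ≠ none}.Finite
  ok : ∀ d w, fn d = some w → Ok d w

instance : Preorder Cond where
  le q p := ∀ d w, p.fn d = some w → q.fn d = some w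
  le_refl _ _ _ h := h
  le_trans _ _ _ h1 h2 d w h := h1 d w (h2 d w h)

lemma Cond.le_def {q p : Cond} : q ≤ p ↔ ∀ d w, p.fn d = some w → q.fn d = some w := Iff.rfl

instance : Inhabited Cond := ⟨⟨fun _ => none, by simp, by simp⟩⟩

/-- Rank preserving permutations of the atoms. -/
def grp : Subgroup (Equiv.Perm Atom) where
  carrier := {g | ∀ a, (g a).1 = a.1}
  mul_mem' := fun {g h} hg hh a => by
    rw [Equiv.Perm.mul_apply, hg, hh]
  one_mem' := fun _ => rfl
  inv_mem' := fun {g} hg a => by
    have := hg (g⁻¹ a)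
    simpa using this.symm

abbrev Grp : Type := grp

@[simp] lemma rank_smul (g : Grp) (a : Atom) : (g • a).1 = a.1 := g.2 a

instance : MulAction Grp Idx where
  smul g d := match d with
    | .pair a b => .pair (g • a) (g • b)
    | .bit a n => .bit (g • a) n
  one_smul d := by
    cases d with
    | pair a b => show Idx.pair _ _ = _; simp
    | bit a n => show Idx.bit _ _ = _; simp
  mul_smul g h d := by
    cases d with
    | pair a b => show Idx.pair _ _ = Idx.pair _ _; simp [mul_smul]
    | bit a n => show Idx.bit _ _ = Idx.bit _ _; simp [mul_smul]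

@[simp] lemma smul_pair (g : Grp) (a b : Atom) : g • Idx.pair a b = .pair (g • a) (g • b) := rfl
@[simp] lemma smul_bit (g : Grp) (a : Atom) (n : ℕ) : g • Idx.bit a n = .bit (g • a) n := rfl

instance : MulAction Grp (List Atom) where
  smul g s := s.map (g • ·)
  one_smul s := by show s.map _ = s; simp
  mul_smul g h s := by show s.map _ = (s.map _).map _; simp [mul_smul]

lemma smul_list (g : Grp) (s : List Atom) : g • s = s.map (g • ·) := rfl

lemma smul_list_eq_iff {g h : Grp} {s : List Atom} : g • s = h • s ↔ ∀ x ∈ s, g • x = h • x := by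
  simp [smul_list, List.map_inj_left]

lemma smul_list_self_iff {g : Grp} {s : List Atom} : g • s = s ↔ ∀ x ∈ s, g • x = x := by
  have := smul_list_eq_iff (g := g) (h := 1) (s := s)
  simpa only [one_smul] using this

instance : MulAction Grp Val where
  smul g w := ⟨g • w.t, w.c⟩
  one_smul w := Val.ext (one_smul _ _) rfl
  mul_smul g h w := Val.ext (mul_smul _ _ _) rfl

@[simp] lemma smul_val_t (g : Grp) (w : Val) : (g • w).t = g • w.t := rfl
@[simp] lemma smul_val_c (g : Grp) (w : Val) : (g • w).c = w.c := rfl

@[simp] lemma bound_smul (g : Grp) (d : Idx) : (g • d).bound = d.bound := by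
  cases d <;> simp [Idx.bound]

lemma Ok.smul {d : Idx} {w : Val} (g : Grp) (h : Ok d w) : Ok (g • d) (g • w) := by
  refine ⟨fun x hx => ?_, by simpa using h.2⟩
  simp only [smul_val_t, smul_list, List.mem_map] at hx
  obtain ⟨y, hy, rfl⟩ := hx
  simpa using h.1 y hy

instance : MulAction Grp Cond where
  smul g p := ⟨fun d => (p.fn (g⁻¹ • d)).map (g • ·), by
      apply (p.fin.image (g • ·)).subset
      intro d hd
      exact ⟨g⁻¹ • d, by simpa using hd, by simp⟩, by
      intro d w h
      obtain ⟨w', h1, rfl⟩ := Option.map_eq_some_iff.mp h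
      simpa using (p.ok _ _ h1).smul g⟩
  one_smul p := by
    apply Cond.ext; funext d
    show (p.fn ((1 : Grp)⁻¹ • d)).map ((1 : Grp) • ·) = _
    simp
  mul_smul g h p := by
    apply Cond.ext; funext d
    show (p.fn ((g * h)⁻¹ • d)).map ((g * h) • ·) =
      ((p.fn (h⁻¹ • g⁻¹ • d)).map (h • ·)).map (g • ·)
    simp [mul_smul, Function.comp_def]

lemma smul_fn (g : Grp) (p : Cond) (d : Idx) :
    (g • p).fn d = (p.fn (g⁻¹ • d)).map (g • ·) := rfl

lemma smul_fn_eq_some {g : Grp} {p : Cond} {d : Idx} {w : Val} :
    (g • p).fn d = some w ↔ p.fn (g⁻¹ • d) = some (g⁻¹ • w) := by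
  rw [smul_fn, Option.map_eq_some_iff]
  constructor
  · rintro ⟨w', h, rfl⟩; simpa using h
  · intro h; exact ⟨_, h, by simp⟩

/-- The filter generated by the pointwise stabilisers of finite sets of atoms. -/
def finSupp : Filter Grp where
  sets := {S | ∃ s : List Atom, ∀ g : Grp, g • s = s → g ∈ S}
  univ_sets := ⟨[], fun _ _ => trivial⟩
  sets_of_superset := fun ⟨s, hs⟩ h => ⟨s, fun g hg => h (hs g hg)⟩
  inter_sets := fun ⟨s, hs⟩ ⟨t, ht⟩ => ⟨s ++ t, fun g hg => by
    rw [smul_list_self_iff] at hg
    exact ⟨hs g (smul_list_self_iff.mpr fun x hx => hg x (List.mem_append_left _ hx)),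
      ht g (smul_list_self_iff.mpr fun x hx => hg x (List.mem_append_right _ hx))⟩⟩

instance : SymSys Grp Cond where
  smul_mono g p q h d w hd := by
    rw [smul_fn_eq_some] at hd ⊢
    exact h _ _ hd
  F := finSupp
  normal := by
    rintro S ⟨s, hs⟩ h
    refine ⟨h • s, fun g hg => hs _ ?_⟩
    rw [mul_smul, mul_smul, hg, inv_smul_smul]

lemma mem_F {S : Set Grp} : S ∈ SymSys.F (Γ := Grp) (P := Cond) ↔
    ∃ s : List Atom, ∀ g : Grp, g • s = s → g ∈ S := Iff.rfl

/-! ### Compatibility -/

def Compat (p q : Cond) : Prop := ∀ d v w, p.fn d = some v → q.fn d = some w → v = w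

def merge (p q : Cond) : Cond where
  fn d := (p.fn d).or (q.fn d)
  fin := by
    apply (p.fin.union q.fin).subset
    intro d hd
    by_contra hc
    simp only [Set.mem_union, Set.mem_ofPred_eq, not_or, not_not] at hc
    simp [hc.1, hc.2] at hd
  ok d w h := by
    rcases Option.or_eq_some_iff.mp h with h | ⟨_, h⟩
    · exact p.ok d w h
    · exact q.ok d w h

lemma merge_le_left (p q : Cond) : merge p q ≤ p := fun d w h => by simp [merge, h]

lemma merge_le_right {p q : Cond} (h : Compat p q) : merge p q ≤ q := by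
  intro d w hd
  cases hp : p.fn d with
  | none => simp [merge, hp, hd]
  | some v => simp [merge, hp, h d v w hp hd]

lemma Compat.merge {p q s : Cond} (h1 : Compat p s) (h2 : Compat q s) : Compat (merge p q) s := by
  intro d v w h hw
  rcases Option.or_eq_some_iff.mp h with h | ⟨_, h⟩
  · exact h1 d v w h hw
  · exact h2 d v w h hw

/-- A condition with a single entry. -/
def single (d : Idx) (w : Val) (h : Ok d w) : Cond where
  fn d' := if d' = d then some w else none
  fin := (Set.finite_singleton d).subset fun d' hd => by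
    by_contra hc
    simp only [Set.mem_singleton_iff] at hc
    simp [hc] at hd
  ok d' w' h' := by
    by_cases e : d' = d
    · simp only [e, if_true, Option.some.injEq] at h'
      rw [e, ← h']; exact h
    · simp [e] at h'

lemma exists_extend (p : Cond) (d : Idx) (w : Val) (h : Ok d w) (hd : p.fn d = none) :
    ∃ q ≤ p, q.fn d = some w ∧ ∀ d', d' ≠ d → q.fn d' = p.fn d' :=
  ⟨merge p (single d w h), merge_le_left _ _, by simp [merge, single, hd],
    fun d' hd' => by simp [merge, single, hd']⟩

/-- The atoms mentioned by a condition. -/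
def Cond.supp (p : Cond) : Set Atom :=
  {x | ∃ d w, p.fn d = some w ∧ (x ∈ d.atoms ∨ x ∈ w.t)}

lemma Idx.atoms_finite (d : Idx) : d.atoms.Finite := by
  cases d <;> simp [Idx.atoms]

lemma Cond.supp_finite (p : Cond) : p.supp.Finite := by
  apply (p.fin.biUnion (t := fun d => d.atoms ∪ {x | ∃ w, p.fn d = some w ∧ x ∈ w.t}) ?_).subset
  · rintro x ⟨d, w, h1, h2⟩
    simp only [Set.mem_iUnion]
    refine ⟨d, by simp [h1], ?_⟩
    rcases h2 with h2 | h2
    · exact Or.inl h2
    · exact Or.inr ⟨w, h1, h2⟩
  · intro d _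
    refine d.atoms_finite.union ?_
    cases h : p.fn d with
    | none => simp
    | some w => simp

/-- A rank preserving injection on a finite set extends to a rank preserving permutation. -/
lemma exists_grp (D : Set Atom) (hD : D.Finite) (f : Atom → Atom) (hf : Set.InjOn f D)
    (hr : ∀ x ∈ D, (f x).1 = x.1) : ∃ g : Grp, ∀ x ∈ D, g • x = f x := by
  induction D, hD using Set.Finite.induction_on with
  | empty => exact ⟨1, by simp⟩
  | @insert a s ha _ ih =>
    obtain ⟨g, hg⟩ := ih (hf.mono (Set.subset_insert _ _))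
      (fun x hx => hr x (Set.mem_insert_of_mem _ hx))
    have hra : (g • a).1 = (f a).1 := by rw [rank_smul, hr a (Set.mem_insert _ _)]
    have hsw : Equiv.swap (g • a) (f a) ∈ grp := by
      intro x
      rw [Equiv.swap_apply_def]
      split_ifs with h1 h2
      · rw [h1, hra]
      · rw [h2, hra]
      · rfl
    refine ⟨⟨_, hsw⟩ * g, ?_⟩
    intro x hx
    rw [mul_smul]
    show Equiv.swap (g • a) (f a) (g • x) = f x
    rcases hx with rfl | hx
    · exact Equiv.swap_apply_left _ _
    · have hxa : x ≠ a := fun e => ha (e ▸ hx)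
      rw [Equiv.swap_apply_of_ne_of_ne]
      · exact hg x hx
      · intro e; exact hxa (smul_left_cancel g e)
      · rw [hg x hx]
        intro e
        exact hxa (hf (Set.mem_insert_of_mem _ hx) (Set.mem_insert _ _) e)

/-- The restriction of a condition to the entries of bound at most `N`. -/
def Cond.restrict (p : Cond) (N : ℕ) : Cond where
  fn d := if d.bound ≤ N then p.fn d else none
  fin := p.fin.subset fun d hd => by
    intro e
    simp [e] at hd
  ok d w h := by
    by_cases e : d.bound ≤ N
    · simp only [e, if_true] at h; exact p.ok d w h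
    · simp [e] at h

lemma Cond.le_restrict (p : Cond) (N : ℕ) : p ≤ p.restrict N := by
  intro d w h
  by_cases e : d.bound ≤ N
  · simpa [Cond.restrict, e] using h
  · simp [Cond.restrict, e] at h

end Pool.Agent.Lib.MP_e3c3cf_lc
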