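import Pool.Agent.Lib.MP_e3c3cf_lc.Cond

/-!
Forcing-valued equivalence relations on the atoms: those with a given finite support are
determined by conditions of bounded level, so there are few of them.
-/

namespace Pool.Agent.Lib.MP_e3c3cf_lc

open Cardinal

/-- A forcing-valued equivalence relation on the atoms. -/
@[ext] structure FEq : Type where
  rel : Atom → Atom → Cond → Prop
  mono : ∀ {a b p q}, rel a b p → q ≤ p → rel a b q
  reg : ∀ {a b p}, Dn (rel a b) p → rel a b p
  refl : ∀ a p, rel a a p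
  symm : ∀ {a b p}, rel a b p → rel b a p
  trans : ∀ {a b c p}, rel a b p → rel b c p → rel a c p

instance : MulAction Grp FEq where
  smul g u :=
    { rel := fun a b p => u.rel (g⁻¹ • a) (g⁻¹ • b) (g⁻¹ • p)
      mono := fun h hq => u.mono h (SymSys.smul_mono g⁻¹ hq)
      reg := fun h => u.reg (Dn.smul g⁻¹ h fun _ hr => hr)
      refl := fun _ _ => u.refl _ _
      symm := fun h => u.symm h
      trans := fun h h' => u.trans h h' }
  one_smul u := by
    apply FEq.ext; funext a b p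
    show u.rel ((1 : Grp)⁻¹ • a) ((1 : Grp)⁻¹ • b) ((1 : Grp)⁻¹ • p) = _
    simp
  mul_smul g h u := by
    apply FEq.ext; funext a b p
    show u.rel ((g * h)⁻¹ • a) ((g * h)⁻¹ • b) ((g * h)⁻¹ • p) =
      u.rel (h⁻¹ • g⁻¹ • a) (h⁻¹ • g⁻¹ • b) (h⁻¹ • g⁻¹ • p)
    simp [mul_smul]

lemma smul_rel (g : Grp) (u : FEq) (a b : Atom) (p : Cond) :
    (g • u).rel a b p ↔ u.rel (g⁻¹ • a) (g⁻¹ • b) (g⁻¹ • p) := Iff.rfl

lemma FEq.rel_smul {u : FEq} {g : Grp} (hg : g • u = u) {a b : Atom} {p : Cond}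
    (h : u.rel a b p) : u.rel (g • a) (g • b) (g • p) := by
  rw [← hg, smul_rel]; simpa using h

/-- `s` supports `u`. -/
def Supp (s : List Atom) (u : FEq) : Prop := ∀ g : Grp, g • s = s → g • u = u

/-- Shifting the second coordinate by a multiple of `M`. -/
def shiftF (M : ℕ) (j : Atom → ℕ) (x : Atom) : Atom := (x.1, x.2 + j x * M)

lemma shiftF_eq {M : ℕ} {j j' : Atom → ℕ} {x y : Atom} (hx : x.2 < M) (hy : y.2 < M)
    (h : shiftF M j x = shiftF M j' y) : x = y ∧ j x = j' y := by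
  simp only [shiftF, Prod.mk.injEq] at h
  have h1 : x.2 = y.2 := by
    have := congrArg (· % M) h.2
    simpa [Nat.add_mul_mod_self_right, Nat.mod_eq_of_lt hx, Nat.mod_eq_of_lt hy] using this
  refine ⟨Prod.ext h.1 h1, ?_⟩
  have h2 : j x * M = j' y * M := by omega
  exact Nat.eq_of_mul_eq_mul_right (by omega) h2

lemma compat_shift {p₁ p₂ : Cond} {g₁ g₂ : Grp} {j₁ j₂ : Atom → ℕ} {M N : ℕ}
    (b₁ : ∀ x ∈ p₁.supp, x.2 < M) (b₂ : ∀ x ∈ p₂.supp, x.2 < M)
    (hg₁ : ∀ x ∈ p₁.supp, g₁ • x = shiftF M j₁ x) (hg₂ : ∀ x ∈ p₂.supp, g₂ • x = shiftF M j₂ x)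
    (low₁ : ∀ x, x.1 ≤ N → j₁ x = 0) (low₂ : ∀ x, x.1 ≤ N → j₂ x = 0)
    (good : ∀ x y, x ≠ y → N < x.1 → N < y.1 → j₁ x = j₂ x → j₁ y = j₂ y → False)
    (agree : ∀ d v w, d.bound ≤ N → p₁.fn d = some v → p₂.fn d = some w → v = w) :
    Compat (g₁ • p₁) (g₂ • p₂) := by
  intro d' v w hv hw
  rw [smul_fn_eq_some] at hv hw
  set d₁ := g₁⁻¹ • d' with hd₁
  set d₂ := g₂⁻¹ • d' with hd₂
  have e : g₁ • d₁ = g₂ • d₂ := by simp [hd₁, hd₂]
  have s₁ : ∀ x ∈ d₁.atoms, x ∈ p₁.supp := fun x hx => ⟨_, _, hv, Or.inl hx⟩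
  have s₂ : ∀ x ∈ d₂.atoms, x ∈ p₂.supp := fun x hx => ⟨_, _, hw, Or.inl hx⟩
  have key : ∀ x ∈ d₁.atoms, ∀ y ∈ d₂.atoms, g₁ • x = g₂ • y → x = y ∧ j₁ x = j₂ y := by
    intro x hx y hy h
    rw [hg₁ x (s₁ x hx), hg₂ y (s₂ y hy)] at h
    exact shiftF_eq (b₁ x (s₁ x hx)) (b₂ y (s₂ y hy)) h
  have h12 : d₁ = d₂ ∧ d₁.bound ≤ N := by
    clear_value d₁ d₂
    cases d₁ with
    | pair a b =>
      cases d₂ with
      | pair a' b' =>
        simp only [smul_pair, Idx.pair.injEq] at e
        obtain ⟨rfl, ha⟩ := key a (by simp [Idx.atoms]) a' (by simp [Idx.atoms]) e.1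
        obtain ⟨rfl, hb⟩ := key b (by simp [Idx.atoms]) b' (by simp [Idx.atoms]) e.2
        refine ⟨rfl, ?_⟩
        simp only [Idx.bound]
        split_ifs with hab
        · omega
        · by_contra hc
          exact good a b hab (by omega) (by omega) ha hb
      | bit a' n => simp at e
    | bit a n =>
      cases d₂ with
      | pair a' b' => simp at e
      | bit a' n' =>
        simp only [smul_bit, Idx.bit.injEq] at e
        obtain ⟨rfl, _⟩ := key a (by simp [Idx.atoms]) a' (by simp [Idx.atoms]) e.1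
        exact ⟨by rw [e.2], by simp [Idx.bound]⟩
  obtain ⟨h1, h2⟩ := h12
  rw [← h1] at hw
  have e2 := agree _ _ _ h2 hv hw
  have fix₁ : g₁ • (g₁⁻¹ • v) = g₁⁻¹ • v := by
    refine Val.ext ?_ (smul_val_c _ _)
    rw [smul_val_t, smul_list_self_iff]
    intro x hx
    have := (p₁.ok _ _ hv).1 x hx
    rw [hg₁ x ⟨_, _, hv, Or.inr hx⟩, shiftF, low₁ x (by omega)]; simp
  have fix₂ : g₂ • (g₂⁻¹ • w) = g₂⁻¹ • w := by
    refine Val.ext ?_ (smul_val_c _ _)
    rw [smul_val_t, smul_list_self_iff]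
    intro x hx
    have := (p₂.ok _ _ hw).1 x hx
    rw [hg₂ x ⟨_, _, hw, Or.inr hx⟩, shiftF, low₂ x (by omega)]; simp
  rw [smul_inv_smul] at fix₁ fix₂
  rw [fix₁, fix₂, e2]

def jG (N : ℕ) (b : Atom) (c : ℕ) (x : Atom) : ℕ := if x.1 ≤ N ∨ x = b then 0 else c

def jK (N : ℕ) (b b' : Atom) (x : Atom) : ℕ :=
  if x.1 ≤ N then 0 else if x = b then 2 else if x = b' then 1 else 3

lemma jG_high {N : ℕ} {b : Atom} {c : ℕ} {x : Atom} (hx : N < x.1) :
    jG N b c x = if x = b then 0 else c := by simp [jG, Nat.not_le.mpr hx]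

lemma jK_high {N : ℕ} {b b' : Atom} {x : Atom} (hx : N < x.1) :
    jK N b b' x = if x = b then 2 else if x = b' then 1 else 3 := by simp [jK, hx]

lemma good_of_unique {N : ℕ} {j₁ j₂ : Atom → ℕ} (a : Atom)
    (h : ∀ x, N < x.1 → j₁ x = j₂ x → x = a) :
    ∀ x y, x ≠ y → N < x.1 → N < y.1 → j₁ x = j₂ x → j₁ y = j₂ y → False :=
  fun x y hxy hx hy h1 h2 => hxy ((h x hx h1).trans (h y hy h2).symm)

lemma good1 {N : ℕ} {b : Atom} {c : ℕ} (hc : c ≠ 0) (x : Atom) (hx : N < x.1)
    (h : 0 = jG N b c x) : x = b := by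
  rw [jG_high hx] at h
  split_ifs at h with h1
  · exact h1
  · exact absurd h.symm hc

lemma good3 {N : ℕ} {b b' : Atom} (x : Atom) (hx : N < x.1) (h : 0 = jK N b b' x) : x = b := by
  rw [jK_high hx] at h
  split_ifs at h

lemma good4 {N : ℕ} {b b' : Atom} (x : Atom) (hx : N < x.1) (h : jG N b 1 x = jG N b' 2 x) :
    x = b := by
  rw [jG_high hx, jG_high hx] at h
  split_ifs at h with h1 <;> first | exact h1 | omega

lemma good5 {N : ℕ} {b b' : Atom} (x : Atom) (hx : N < x.1) (h : jG N b 1 x = jK N b b' x) :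
    x = b' := by
  rw [jG_high hx, jK_high hx] at h
  split_ifs at h with h1 h2 <;> first | exact h2 | omega

lemma good6 {N : ℕ} {b b' : Atom} (x : Atom) (hx : N < x.1) (h : jG N b' 2 x = jK N b b' x) :
    x = b := by
  rw [jG_high hx, jK_high hx] at h
  split_ifs at h with h1 h2 h3 <;> first | assumption | omega

/-- The key lemma: relatedness is already forced by the part of bounded level. -/
theorem FEq.rel_restrict {u : FEq} {s : List Atom} (hs : Supp s u) {N : ℕ}
    (hN : ∀ x ∈ s, x.1 ≤ N) {b b' : Atom} {p : Cond} (h : u.rel b b' p) :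
    u.rel b b' (p.restrict N) := by
  classical
  by_cases hbb : b = b'
  · subst hbb; exact u.refl _ _
  apply u.reg
  intro r hr
  set D : Set Atom := p.supp ∪ {x | x ∈ s} ∪ {b, b'} with hD
  have hDfin : D.Finite := (p.supp_finite.union s.finite_toSet).union (Set.toFinite _)
  obtain ⟨M', hM'⟩ := ((hDfin.union r.supp_finite).image Prod.snd).bddAbove
  set M := M' + 1 with hM
  have hDM : ∀ x ∈ D, x.2 < M := fun x hx =>
    Nat.lt_succ_of_le (hM' (Set.mem_image_of_mem _ (Or.inl hx)))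
  have hrM : ∀ x ∈ r.supp, x.2 < M := fun x hx =>
    Nat.lt_succ_of_le (hM' (Set.mem_image_of_mem _ (Or.inr hx)))
  have hpD : ∀ x ∈ p.supp, x ∈ D := fun x hx => Or.inl (Or.inl hx)
  have hpM : ∀ x ∈ p.supp, x.2 < M := fun x hx => hDM x (hpD x hx)
  have mk : ∀ j : Atom → ℕ, ∃ g : Grp, ∀ x ∈ D, g • x = shiftF M j x := fun j =>
    exists_grp D hDfin _ (fun x hx y hy e => (shiftF_eq (hDM x hx) (hDM y hy) e).1)
      (fun _ _ => rfl)
  let jg : Atom → ℕ := jG N b 1
  let jh : Atom → ℕ := jG N b' 2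
  let jk : Atom → ℕ := jK N b b'
  obtain ⟨g, hg⟩ := mk jg
  obtain ⟨h', hh⟩ := mk jh
  obtain ⟨k, hk⟩ := mk jk
  have lg : ∀ x, x.1 ≤ N → jg x = 0 := fun x hx => by simp [jg, jG, hx]
  have lh : ∀ x, x.1 ≤ N → jh x = 0 := fun x hx => by simp [jh, jG, hx]
  have lk : ∀ x, x.1 ≤ N → jk x = 0 := fun x hx => by simp [jk, jK, hx]
  have fixs : ∀ (g : Grp) (j : Atom → ℕ), (∀ x ∈ D, g • x = shiftF M j x) →
      (∀ x, x.1 ≤ N → j x = 0) → g • u = u := by
    intro g j h1 h2
    apply hs
    rw [smul_list_self_iff]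
    intro x hx
    rw [h1 x (Or.inl (Or.inr hx)), shiftF, h2 x (hN x hx)]; simp
  have bD : b ∈ D := Or.inr (Or.inl rfl)
  have b'D : b' ∈ D := Or.inr (Or.inr rfl)
  have r1 := FEq.rel_smul (fixs g jg hg lg) h
  have r2 := FEq.rel_smul (fixs h' jh hh lh) h
  have r3 := FEq.rel_smul (fixs k jk hk lk) h
  have e1 : g • b = b := by rw [hg b bD]; simp [shiftF, jg, jG]
  have e2 : h' • b' = b' := by rw [hh b' b'D]; simp [shiftF, jh, jG]
  have e3 : k • b = h' • b := by
    rw [hk b bD, hh b bD]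
    by_cases hb : b.1 ≤ N <;> simp [shiftF, jk, jh, jG, jK, hb, hbb]
  have e4 : k • b' = g • b' := by
    rw [hk b' b'D, hg b' b'D]
    by_cases hb : b'.1 ≤ N <;> simp [shiftF, jk, jg, jG, jK, hb, Ne.symm hbb]
  rw [e1] at r1
  rw [e2] at r2
  rw [e3, e4] at r3
  have agree_r : ∀ d v w, d.bound ≤ N → r.fn d = some v → p.fn d = some w → v = w := by
    intro d v w hd hv hw
    have := hr d w (by simp [Cond.restrict, hd, hw])
    rw [hv] at this
    exact Option.some.inj this
  have agree_p : ∀ d v w, d.bound ≤ N → p.fn d = some v → p.fn d = some w → v = w := by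
    intro d v w _ hv hw
    rw [hv] at hw
    exact Option.some.inj hw
  have cr : ∀ (g : Grp) (j : Atom → ℕ), (∀ x ∈ D, g • x = shiftF M j x) →
      (∀ x, x.1 ≤ N → j x = 0) →
      (∀ x y, x ≠ y → N < x.1 → N < y.1 → 0 = j x → 0 = j y → False) → Compat r (g • p) := by
    intro g j h1 h2 h3
    have := compat_shift (g₁ := 1) (j₁ := fun _ => 0) hrM hpM (fun x _ => by simp [shiftF])
      (fun x hx => h1 x (hpD x hx)) (fun _ _ => rfl) h2 h3 agree_r
    rwa [one_smul] at this
  have c1 : Compat r (g • p) := cr g jg hg lg (good_of_unique b (good1 one_ne_zero))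
  have c2 : Compat r (h' • p) := cr h' jh hh lh (good_of_unique b' (good1 two_ne_zero))
  have c3 : Compat r (k • p) := cr k jk hk lk (good_of_unique b good3)
  have c4 : Compat (g • p) (h' • p) := compat_shift hpM hpM (fun x hx => hg x (hpD x hx))
    (fun x hx => hh x (hpD x hx)) lg lh (good_of_unique b good4) agree_p
  have c5 : Compat (g • p) (k • p) := compat_shift hpM hpM (fun x hx => hg x (hpD x hx))
    (fun x hx => hk x (hpD x hx)) lg lk (good_of_unique b' good5) agree_p
  have c6 : Compat (h' • p) (k • p) := compat_shift hpM hpM (fun x hx => hh x (hpD x hx))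
    (fun x hx => hk x (hpD x hx)) lh lk (good_of_unique b good6) agree_p
  have l3 := merge_le_left (merge (merge r (g • p)) (h' • p)) (k • p)
  have l2 := merge_le_left (merge r (g • p)) (h' • p)
  have l1 := merge_le_left r (g • p)
  refine ⟨merge (merge (merge r (g • p)) (h' • p)) (k • p), l3.trans (l2.trans l1), ?_⟩
  have q1 := u.mono r1 (l3.trans (l2.trans (merge_le_right c1)))
  have q2 := u.mono r2 (l3.trans (merge_le_right (c2.merge c4)))
  have q3 := u.mono r3 (merge_le_right ((c3.merge c5).merge c6))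
  exact u.trans q1 (u.trans (u.symm q3) q2)

/-! ### Counting -/

lemma lev_lt (n : ℕ) : #(Lev n) < #(Lev (n + 1)) := by
  show #(Lev n) < #(Set (Lev n))
  rw [mk_set]; exact cantor _

lemma aleph0_le_lev (n : ℕ) : ℵ₀ ≤ #(Lev n) := by
  induction n with
  | zero => exact (mk_nat).ge
  | succ n ih => exact ih.trans (lev_lt n).le

lemma col_le (N : ℕ) : #{c : Col | c.1 ≤ N} ≤ #(Lev N) := by
  induction N with
  | zero =>
    refine le_trans (mk_le_mk_of_subset (t := Set.range (Sigma.mk 0)) ?_) mk_range_le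
    rintro ⟨n, c⟩ hn
    obtain rfl : n = 0 := Nat.le_zero.mp hn
    exact ⟨c, rfl⟩
  | succ N ih =>
    refine le_trans (mk_le_mk_of_subset
      (t := {c : Col | c.1 ≤ N} ∪ Set.range (Sigma.mk (N + 1))) ?_) ?_
    · rintro ⟨n, c⟩ hn
      rcases Nat.lt_or_eq_of_le hn with h | h
      · exact Or.inl (Nat.lt_succ_iff.mp h)
      · obtain rfl : n = N + 1 := h
        exact Or.inr ⟨c, rfl⟩
    · refine (mk_union_le _ _).trans ?_
      refine (add_le_add (ih.trans (lev_lt N).le) mk_range_le).trans ?_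
      rw [add_eq_self (aleph0_le_lev _)]

instance : Countable Idx := by
  refine Function.Injective.countable (f := fun d : Idx => match d with
    | .pair a b => (Sum.inl (a, b) : Atom × Atom ⊕ Atom × ℕ)
    | .bit a n => Sum.inr (a, n)) ?_
  intro d d' h
  cases d <;> cases d' <;> simp_all

instance : Infinite Idx := Infinite.of_injective (Idx.bit (0, 0)) fun _ _ h => by simpa using h

/-- Conditions all of whose colours have level at most `N`. -/
def CondN (N : ℕ) : Type := {p : Cond // ∀ d w, p.fn d = some w → w.c.1 ≤ N}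

lemma condN_le (N : ℕ) : #(CondN N) ≤ #(Lev N) := by
  classical
  have : Nonempty {c : Col | c.1 ≤ N} := ⟨⟨⟨0, (0 : ℕ)⟩, Nat.zero_le _⟩⟩
  let α := Idx × List Atom × {c : Col | c.1 ≤ N}
  have hfin : ∀ p : CondN N, {z : α | p.1.fn z.1 = some ⟨z.2.1, z.2.2.1⟩}.Finite := by
    intro p
    apply Set.Finite.of_finite_image (f := fun z : α => z.1)
    · apply p.1.fin.subset
      rintro _ ⟨z, hz, rfl⟩
      simp only [Set.mem_ofPred_eq] at hz ⊢
      simp [hz]
    · rintro ⟨d, t, c⟩ h1 ⟨d', t', c'⟩ h2 e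
      simp only at e
      subst e
      simp only [Set.mem_ofPred_eq] at h1 h2
      rw [h1] at h2
      simp only [Option.some.injEq, Val.mk.injEq] at h2
      rw [h2.1, Subtype.ext h2.2]
  have hinj : Function.Injective fun p : CondN N => (hfin p).toFinset := by
    intro p q e
    have key : ∀ p q : CondN N, (hfin p).toFinset = (hfin q).toFinset → q.1 ≤ p.1 := by
      intro p q e d w hd
      have : ((d, w.t, ⟨w.c, p.2 d w hd⟩) : α) ∈ (hfin p).toFinset :=
        (Set.Finite.mem_toFinset _).mpr hd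
      rw [e] at this
      exact (Set.Finite.mem_toFinset (hfin q)).mp this
    apply Subtype.ext
    apply Cond.ext
    funext d
    cases hp : p.1.fn d with
    | some w => exact (key p q e d w hp).symm
    | none =>
      cases hq : q.1.fn d with
      | none => rfl
      | some w => rw [key q p e.symm d w hq] at hp; exact absurd hp (by simp)
  refine (mk_le_of_injective hinj).trans ?_
  rw [mk_finset_of_infinite]
  simp only [α, mk_prod, lift_id]
  have h1 : #Idx ≤ #(Lev N) := mk_le_aleph0.trans (aleph0_le_lev N)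
  have h2 : #(List Atom) ≤ #(Lev N) := mk_le_aleph0.trans (aleph0_le_lev N)
  refine (mul_le_mul' h1 (mul_le_mul' h2 (col_le N))).trans ?_
  rw [mul_eq_self (aleph0_le_lev N), mul_eq_self (aleph0_le_lev N)]

def Cond.restrictN (p : Cond) (N : ℕ) : CondN N :=
  ⟨p.restrict N, fun d w h => by
    by_cases e : d.bound ≤ N
    · exact ((p.restrict N).ok d w h).2.trans e
    · simp [Cond.restrict, e] at h⟩

/-- Equality as a forcing-valued equivalence relation. -/
def FEq.triv : FEq where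
  rel a b _ := a = b
  mono h _ := h
  reg {_ _ p} h := by obtain ⟨_, _, h⟩ := h p le_rfl; exact h
  refl _ _ := rfl
  symm h := h.symm
  trans h h' := h.trans h'

lemma supp_triv (s : List Atom) : Supp s FEq.triv := by
  intro g _
  apply FEq.ext; funext a b p
  apply propext
  rw [smul_rel]
  simp [FEq.triv]

theorem exists_enum (s : List Atom) :
    ∃ H : Col → FEq, (∀ ξ, Supp s (H ξ)) ∧ ∀ u, Supp s u → ∃ ξ, H ξ = u := by
  obtain ⟨N, hN⟩ := (s.finite_toSet.image Prod.fst).bddAbove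
  have hN' : ∀ x ∈ s, x.1 ≤ N := fun x hx => hN (Set.mem_image_of_mem _ hx)
  have : Nonempty {u // Supp s u} := ⟨⟨_, supp_triv s⟩⟩
  have hinj : Function.Injective fun u : {u // Supp s u} =>
      {z : CondN N × Atom × Atom | u.1.rel z.2.1 z.2.2 z.1.1} := by
    have key : ∀ u u' : {u // Supp s u},
        {z : CondN N × Atom × Atom | u.1.rel z.2.1 z.2.2 z.1.1} =
          {z : CondN N × Atom × Atom | u'.1.rel z.2.1 z.2.2 z.1.1} →
        ∀ a b p, u.1.rel a b p → u'.1.rel a b p := by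
      intro u u' e a b p h
      have h1 : (p.restrictN N, a, b) ∈ {z : CondN N × Atom × Atom | u.1.rel z.2.1 z.2.2 z.1.1} :=
        FEq.rel_restrict u.2 hN' h
      rw [e] at h1
      exact u'.1.mono h1 (p.le_restrict N)
    intro u u' e
    apply Subtype.ext
    apply FEq.ext; funext a b p
    exact propext ⟨key u u' e a b p, key u' u e.symm a b p⟩
  have hcard : #{u // Supp s u} ≤ #Col := by
    refine (mk_le_of_injective hinj).trans ?_
    refine le_trans ?_ (mk_le_of_injective (sigma_mk_injective (β := Lev) (i := N + 1)))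
    show _ ≤ #(Set (Lev N))
    rw [mk_set, mk_set]
    apply power_le_power_left two_ne_zero
    have h1 : #(Atom × Atom) ≤ #(Lev N) := mk_le_aleph0.trans (aleph0_le_lev N)
    rw [mk_prod, lift_id, lift_id]
    refine (mul_le_mul' (condN_le N) h1).trans ?_
    rw [mul_eq_self (aleph0_le_lev N)]
  obtain ⟨e⟩ := (le_def _ _).mp hcard
  refine ⟨fun ξ => (Function.invFun e ξ).1, fun ξ => (Function.invFun e ξ).2, fun u hu => ?_⟩
  exact ⟨e ⟨u, hu⟩, congrArg Subtype.val (Function.leftInverse_invFun e.injective ⟨u, hu⟩)⟩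

/-- An equivariant family of enumerations. -/
theorem exists_equivariant_enum : ∃ h : List Atom → Col → FEq,
    (∀ (g : Grp) s ξ, h (g • s) ξ = g • h s ξ) ∧ ∀ s u, Supp s u → ∃ ξ, h s ξ = u := by
  choose H hH1 hH2 using exists_enum
  let rep : List Atom → List Atom := fun s => (Quotient.mk (MulAction.orbitRel Grp _) s).out
  have hrep : ∀ s, ∃ g : Grp, g • rep s = s := by
    intro s
    have : (MulAction.orbitRel Grp _).r s (rep s) :=
      (MulAction.orbitRel Grp _).symm (Quotient.mk_out (s := MulAction.orbitRel Grp _) s)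
    exact this
  choose c hc using hrep
  have hrep' : ∀ (g : Grp) s, rep (g • s) = rep s := by
    intro g s
    simp only [rep]
    congr 1
    exact Quotient.sound ⟨g, rfl⟩
  refine ⟨fun s ξ => c s • H (rep s) ξ, ?_, ?_⟩
  · intro g s ξ
    have h1 : ((c (g • s))⁻¹ * g * c s) • rep s = rep s := by
      rw [mul_smul, mul_smul, hc, inv_smul_eq_iff, ← hrep' g s, hc]
    have h2 := hH1 (rep s) ξ _ h1
    rw [mul_smul, mul_smul, inv_smul_eq_iff] at h2
    simp only [hrep']
    exact h2.symm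
  · intro s u hu
    have h1 : Supp (rep s) ((c s)⁻¹ • u) := by
      intro g hg
      have h2 : (c s * g * (c s)⁻¹) • s = s := by
        have h4 : (c s)⁻¹ • s = rep s := by rw [inv_smul_eq_iff, hc]
        rw [mul_smul, mul_smul, h4, hg, hc]
      have h3 := hu _ h2
      rw [mul_smul, mul_smul] at h3
      rw [eq_inv_smul_iff, h3]
    obtain ⟨ξ, hξ⟩ := hH2 _ _ h1
    exact ⟨ξ, by simp only [hξ, smul_inv_smul]⟩

end Pool.Agent.Lib.MP_e3c3cf_lc
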