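import Mathlib

/-!
Models of ZF and the set-theoretic notions of the problem, read inside a structure `(M, E)`
where `E x y` means that `x` is an element of `y`.
-/

open FirstOrder

namespace Pool.Agent.Lib.MP_e3c3cf_lc

/-- The one binary relation symbol of the language of set theory. -/
inductive MemRel : ℕ → Type
  | mem : MemRel 2

/-- The first-order language of set theory. -/
def setLang : Language := ⟨fun _ => Empty, MemRel⟩

/-- The structure for the language of set theory that interprets membership by `E`. -/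
@[reducible] def memStructure {M : Type} (E : M → M → Prop) : setLang.Structure M where
  funMap := fun f _ => Empty.elim f
  RelMap := fun r x => match r with
    | MemRel.mem => E (x 0) (x 1)

/-- The formula `φ` of set theory, with `n` free variables, holds in `(M, E)` at the tuple `xs`. -/
def Sat {M : Type} (E : M → M → Prop) {n : ℕ} (φ : setLang.BoundedFormula Empty n)
    (xs : Fin n → M) : Prop :=
  @Language.BoundedFormula.Realize setLang M (memStructure E) Empty n φ Empty.elim xs

/-- `I` is an inductive set: it contains the empty set and is closed under `x ↦ x ∪ {x}`. -/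
def IsInductive {M : Type} (E : M → M → Prop) (I : M) : Prop :=
  (∃ e, E e I ∧ ∀ w, ¬ E w e) ∧ ∀ x, E x I → ∃ s, E s I ∧ ∀ w, E w s ↔ E w x ∨ w = x

/-- `(M, E)` is a model of Zermelo-Fraenkel set theory (without the axiom of choice). -/
structure IsModelZF {M : Type} (E : M → M → Prop) : Prop where
  extensionality : ∀ x y, (∀ z, E z x ↔ E z y) → x = y
  foundation : ∀ x, (∃ y, E y x) → ∃ y, E y x ∧ ∀ z, E z y → ¬ E z x
  pairing : ∀ x y, ∃ p, ∀ z, E z p ↔ z = x ∨ z = y
  union : ∀ x, ∃ u, ∀ z, E z u ↔ ∃ y, E y x ∧ E z y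
  powerset : ∀ x, ∃ p, ∀ z, E z p ↔ ∀ w, E w z → E w x
  infinity : ∃ I, IsInductive E I
  separation : ∀ (n : ℕ) (φ : setLang.BoundedFormula Empty (n + 1)) (ps : Fin n → M) (x : M),
    ∃ y, ∀ z, E z y ↔ E z x ∧ Sat E φ (Fin.snoc ps z)
  replacement : ∀ (n : ℕ) (φ : setLang.BoundedFormula Empty (n + 2)) (ps : Fin n → M) (x : M),
    (∀ u, E u x → ∃! v, Sat E φ (Fin.snoc (Fin.snoc ps u) v)) →
      ∃ y, ∀ v, E v y ↔ ∃ u, E u x ∧ Sat E φ (Fin.snoc (Fin.snoc ps u) v)

/-- `p` is the Kuratowski ordered pair `{{a}, {a, b}}`. -/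
def IsOPair {M : Type} (E : M → M → Prop) (a b p : M) : Prop :=
  ∀ z, E z p ↔ (∀ w, E w z ↔ w = a) ∨ (∀ w, E w z ↔ w = a ∨ w = b)

/-- The ordered pair `(x, y)` is an element of `f`. -/
def Maps {M : Type} (E : M → M → Prop) (f x y : M) : Prop :=
  ∃ p, E p f ∧ IsOPair E x y p

/-- `f` is a function with domain `X` and range exactly `Y`, that is, a surjection from `X`
onto `Y`. -/
def IsSurjection {M : Type} (E : M → M → Prop) (f X Y : M) : Prop :=
  (∀ p, E p f → ∃ x y, E x X ∧ E y Y ∧ IsOPair E x y p) ∧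
    (∀ x, E x X → ∃! y, Maps E f x y) ∧ (∀ y, E y Y → ∃ x, Maps E f x y)

/-- `f` is a bijection from `X` onto `Y`. -/
def IsBijection {M : Type} (E : M → M → Prop) (f X Y : M) : Prop :=
  IsSurjection E f X Y ∧ ∀ x x' y, Maps E f x y → Maps E f x' y → x = x'

/-- `n` is a natural number: it belongs to every inductive set. -/
def IsNat {M : Type} (E : M → M → Prop) (n : M) : Prop :=
  ∀ I, IsInductive E I → E n I

/-- `A` is infinite: there is no bijection from a natural number onto `A`. -/
def IsInfinite {M : Type} (E : M → M → Prop) (A : M) : Prop :=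
  ¬ ∃ n g, IsNat E n ∧ IsBijection E g n A

/-- `S` is the Cartesian square `A × A`. -/
def IsSquare {M : Type} (E : M → M → Prop) (A S : M) : Prop :=
  ∀ p, E p S ↔ ∃ a b, E a A ∧ E b A ∧ IsOPair E a b p

/-- `P` is a partition of `A`: a set of nonempty, pairwise disjoint subsets of `A` with
union `A`. -/
def IsPartition {M : Type} (E : M → M → Prop) (A P : M) : Prop :=
  (∀ X, E X P → (∃ w, E w X) ∧ ∀ w, E w X → E w A) ∧
    (∀ X Y, E X P → E Y P → X ≠ Y → ¬ ∃ w, E w X ∧ E w Y) ∧
    (∀ a, E a A → ∃ X, E X P ∧ E a X)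

/-- `Q` is the set `Part(A)` of all partitions of `A`. -/
def IsPartitionSet {M : Type} (E : M → M → Prop) (A Q : M) : Prop :=
  ∀ P, E P Q ↔ IsPartition E A P

end Pool.Agent.Lib.MP_e3c3cf_lc
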