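import Pool.Agent.Lib.MP_e3c3cf_lc.Names

/-!
The forcing relation for first-order formulas, with quantifiers ranging over hereditarily
symmetric names.
-/

open FirstOrder

namespace Pool.Agent.Lib.MP_e3c3cf_lc

open Name

variable {P : Type} [Preorder P] {Γ : Type} [Group Γ] [MulAction Γ P] [S : SymSys Γ P]

/-- Every term of the language of set theory is a variable. -/
def tvar {n : ℕ} : setLang.Term (Empty ⊕ Fin n) → Fin n
  | .var (.inl e) => e.elim
  | .var (.inr i) => i
  | .func f _ => Empty.elim f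

lemma realize_tvar {M : Type} (E : M → M → Prop) {n : ℕ} (t : setLang.Term (Empty ⊕ Fin n))
    (xs : Fin n → M) :
    @Language.Term.realize setLang M (memStructure E) _ (Sum.elim Empty.elim xs) t =
      xs (tvar t) := by
  cases t with
  | var a => cases a with
    | inl e => exact e.elim
    | inr i => rfl
  | func f _ => exact Empty.elim f

/-- Forcing for atomic relations. -/
def relVal {l : ℕ} (R : MemRel l) (ys : Fin l → Name P) (p : P) : Prop :=
  match R with
  | MemRel.mem => fmem (ys 0) (ys 1) p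

/-- The forcing relation. -/
def frc : ∀ {n : ℕ}, setLang.BoundedFormula Empty n → (Fin n → HSName Γ P) → P → Prop
  | _, .falsum, _, _ => False
  | _, .equal t₁ t₂, xs, p => feq (xs (tvar t₁)).1 (xs (tvar t₂)).1 p
  | _, .rel R ts, xs, p => relVal R (fun i => (xs (tvar (ts i))).1) p
  | _, .imp φ ψ, xs, p => ∀ q ≤ p, frc φ xs q → frc ψ xs q
  | _, .all φ, xs, p => ∀ y : HSName Γ P, frc φ (Fin.snoc xs y) p

lemma frc.mono {n : ℕ} {φ : setLang.BoundedFormula Empty n} {xs : Fin n → HSName Γ P} {p q : P}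
    (h : frc φ xs p) (hq : q ≤ p) : frc φ xs q := by
  induction φ generalizing p q with
  | falsum => exact h
  | equal t₁ t₂ => exact feq.mono h hq
  | rel R ts => cases R; exact fmem.mono h hq
  | imp φ ψ _ _ => exact fun r hr => h r (hr.trans hq)
  | all φ ih => exact fun y => ih (h y) hq

lemma frc.reg {n : ℕ} {φ : setLang.BoundedFormula Empty n} {xs : Fin n → HSName Γ P} {p : P}
    (h : Dn (frc φ xs) p) : frc φ xs p := by
  induction φ generalizing p with
  | falsum => obtain ⟨_, _, h⟩ := h p le_rfl; exact h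
  | equal t₁ t₂ => exact feq.reg h
  | rel R ts => cases R; exact fmem.reg h
  | imp φ ψ _ ih =>
    intro q hq h1
    apply ih
    intro r hr
    obtain ⟨s, hs, h2⟩ := h r (hr.trans hq)
    exact ⟨s, hs, h2 s le_rfl (h1.mono (hs.trans hr))⟩
  | all φ ih => exact fun y => ih (h.imp fun r _ hr => hr y)

lemma frc.congr {n : ℕ} {φ : setLang.BoundedFormula Empty n} {xs ys : Fin n → HSName Γ P} {p : P}
    (h : frc φ xs p) (e : ∀ i, feq (xs i).1 (ys i).1 p) : frc φ ys p := by
  induction φ generalizing p with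
  | falsum => exact h
  | equal t₁ t₂ => exact (e _).symm.trans (feq.trans h (e _))
  | rel R ts => cases R; exact (fmem.congr_left h (e _)).congr_right (e _)
  | imp φ ψ ih1 ih2 =>
    intro q hq h1
    exact ih2 (h q hq (ih1 h1 fun i => ((e i).mono hq).symm)) fun i => (e i).mono hq
  | all φ ih =>
    intro y
    apply ih (h y)
    intro i
    refine Fin.lastCases ?_ (fun j => ?_) i
    · simp [feq.refl]
    · simpa using e j

lemma smul_snoc {n : ℕ} (g : Γ) (xs : Fin n → HSName Γ P) (y : HSName Γ P) :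
    g • (Fin.snoc xs y : Fin (n + 1) → HSName Γ P) = Fin.snoc (g • xs) (g • y) := by
  funext i
  refine Fin.lastCases ?_ (fun j => ?_) i <;> simp

lemma frc.smul {n : ℕ} {φ : setLang.BoundedFormula Empty n} {xs : Fin n → HSName Γ P} {p : P}
    (g : Γ) (h : frc φ xs p) : frc φ (g • xs) (g • p) := by
  induction φ generalizing p g with
  | falsum => exact h
  | equal t₁ t₂ => exact feq.smul g h
  | rel R ts => cases R; exact fmem.smul g h
  | imp φ ψ ih1 ih2 =>
    intro q hq h1
    have h2 := ih1 g⁻¹ h1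
    rw [inv_smul_smul] at h2
    have h3 := ih2 g (h _ ((le_smul_iff g).mp hq) h2)
    rwa [smul_inv_smul] at h3
  | all φ ih =>
    intro y
    have := ih g (h (g⁻¹ • y))
    rwa [smul_snoc, smul_inv_smul] at this

/-- The joint symmetry group of a tuple is in the filter. -/
lemma tuple_sym_mem {n : ℕ} (xs : Fin n → HSName Γ P) :
    {g : Γ | ∀ i, g ∈ sym Γ (xs i).1} ∈ S.F := by
  have : {g : Γ | ∀ i, g ∈ sym Γ (xs i).1} = ⋂ i, sym Γ (xs i).1 := by
    ext g; simp
  rw [this, Filter.iInter_mem]
  exact fun i => (xs i).2.sym_mem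

lemma frc.smul_snoc {n : ℕ} {φ : setLang.BoundedFormula Empty (n + 1)} {xs : Fin n → HSName Γ P}
    {y : HSName Γ P} {p : P} {g : Γ} (hg : ∀ i, g ∈ sym Γ (xs i).1)
    (h : frc φ (Fin.snoc xs y) p) : frc φ (Fin.snoc xs (g • y)) (g • p) := by
  have := h.smul g
  rw [Pool.Agent.Lib.MP_e3c3cf_lc.smul_snoc] at this
  apply this.congr
  intro i
  refine Fin.lastCases ?_ (fun j => ?_) i
  · simp [feq.refl]
  · simpa using hg j _

lemma frc.congr_snoc {n : ℕ} {φ : setLang.BoundedFormula Empty (n + 1)} {xs : Fin n → HSName Γ P}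
    {y y' : HSName Γ P} {p : P} (h : frc φ (Fin.snoc xs y) p) (e : feq y.1 y'.1 p) :
    frc φ (Fin.snoc xs y') p := by
  apply h.congr
  intro i
  refine Fin.lastCases ?_ (fun j => ?_) i
  · simpa using e
  · simp [feq.refl]

end Pool.Agent.Lib.MP_e3c3cf_lc
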