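import Pool.Agent.Lib.MP_e3c3cf_lc.Ops

/-!
A countable set of names and a descending sequence of conditions that are generic for countably
many tasks, and the two-valued model they determine.
-/

open FirstOrder

namespace Pool.Agent.Lib.MP_e3c3cf_lc

open Name

/-- A task asks for a witness and a condition satisfying `Φ` at given parameters. -/
structure Task (N : Type 1) (P : Type) where
  ι : Type
  fin : Finite ι
  Φ : (ι → N) → N → P → Prop

/-- An enumeration of names and a descending sequence of conditions. -/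
structure Gen (N : Type 1) (P : Type) [Preorder P] where
  e : ℕ → N
  g : ℕ → P
  anti : Antitone g

section
variable {N : Type 1} {P : Type} [Preorder P]

def Gen.Meets (G : Gen N P) (T : Task N P) : Prop :=
  ∀ xs : T.ι → ℕ, (∃ m j, T.Φ (G.e ∘ xs) (G.e j) (G.g m)) ∨
    ∃ m, ∀ r ≤ G.g m, ∀ y, ¬ T.Φ (G.e ∘ xs) y r

lemma Gen.Meets.of_dn {G : Gen N P} {T : Task N P} (h : G.Meets T) (xs : T.ι → ℕ) {m : ℕ}
    (hd : Dn (fun r => ∃ y, T.Φ (G.e ∘ xs) y r) (G.g m)) :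
    ∃ m j, T.Φ (G.e ∘ xs) (G.e j) (G.g m) := by
  rcases h xs with h1 | ⟨k, hk⟩
  · exact h1
  · obtain ⟨r, hr, y, hy⟩ := hd (G.g (max m k)) (G.anti (le_max_left _ _))
    exact absurd hy (hk r (hr.trans (G.anti (le_max_right _ _))) y)

theorem exists_gen [Nonempty P] [Inhabited N] (𝒯 : Set (Task N P)) (h𝒯 : 𝒯.Countable) :
    ∃ G : Gen N P, ∀ T ∈ 𝒯, G.Meets T := by
  classical
  have : Nonempty (Task N P) := ⟨⟨Empty, inferInstance, fun _ _ _ => True⟩⟩
  obtain ⟨t, ht⟩ := Set.countable_iff_exists_subset_range.mp h𝒯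
  have : ∀ k, Finite (t k).ι := fun k => (t k).fin
  have : Nonempty (Σ k : ℕ, ((t k).ι → ℕ)) := ⟨⟨0, fun _ => 0⟩⟩
  obtain ⟨τ, hτ⟩ := exists_surjective_nat (Σ k : ℕ, ((t k).ι → ℕ))
  have key : ∀ (j : Σ k : ℕ, ((t k).ι → ℕ)) (s : P × (ℕ → N)), ∃ z : P × N, z.1 ≤ s.1 ∧
      ((t j.1).Φ (s.2 ∘ j.2) z.2 z.1 ∨ ∀ r ≤ z.1, ∀ y, ¬ (t j.1).Φ (s.2 ∘ j.2) y r) := by
    intro j s
    by_cases h : ∃ r ≤ s.1, ∃ y, (t j.1).Φ (s.2 ∘ j.2) y r
    · obtain ⟨r, hr, y, hy⟩ := h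
      exact ⟨(r, y), hr, Or.inl hy⟩
    · push Not at h
      exact ⟨(s.1, default), le_rfl, Or.inr h⟩
  choose c hc using key
  let st : ℕ → P × (ℕ → N) := fun n => Nat.rec (Classical.arbitrary P, fun _ => default)
    (fun n s => ((c (τ n.unpair.1) s).1, Function.update s.2 n (c (τ n.unpair.1) s).2)) n
  have st_succ : ∀ n, st (n + 1) =
      ((c (τ n.unpair.1) (st n)).1, Function.update (st n).2 n (c (τ n.unpair.1) (st n)).2) :=
    fun n => rfl
  have stable : ∀ k m, k < m → (st m).2 k = (st (k + 1)).2 k := by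
    intro k m hkm
    induction m with
    | zero => omega
    | succ m ih =>
      rcases Nat.lt_succ_iff_lt_or_eq.mp hkm with h | h
      · rw [st_succ m]
        simp only
        rw [Function.update_of_ne h.ne, ih h]
      · rw [h]
  refine ⟨⟨fun k => (st (k + 1)).2 k, fun n => (st n).1, ?_⟩, ?_⟩
  · apply antitone_nat_of_succ_le
    intro n
    exact (hc _ (st n)).1
  · intro T hT xs
    obtain ⟨k, rfl⟩ := ht hT
    obtain ⟨a, ha⟩ := hτ ⟨k, xs⟩
    obtain ⟨B, hB⟩ := (Set.finite_range xs).bddAbove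
    set n := Nat.pair a (B + 1) with hn
    have h1 : τ n.unpair.1 = ⟨k, xs⟩ := by rw [hn, Nat.unpair_pair, ha]
    have h2 : (st n).2 ∘ xs = (fun k => (st (k + 1)).2 k) ∘ xs := by
      funext i
      apply stable
      have := hB (Set.mem_range_self i)
      have := Nat.right_le_pair a (B + 1)
      omega
    have h3 := (hc ⟨k, xs⟩ (st n)).2
    have h4 : st (n + 1) = ((c ⟨k, xs⟩ (st n)).1,
        Function.update (st n).2 n (c ⟨k, xs⟩ (st n)).2) := by rw [st_succ, h1]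
    simp only [h2] at h3
    rcases h3 with h3 | h3
    · left
      refine ⟨n + 1, n, ?_⟩
      simp only [h4, Function.update_self]
      exact h3
    · right
      refine ⟨n + 1, ?_⟩
      simp only [h4]
      exact h3

end

variable {Γ P : Type} [Preorder P] [Group Γ] [MulAction Γ P] [S : SymSys Γ P]

namespace Gen

variable (G : Gen (HSName Γ P) P)

lemma le_left (n m : ℕ) : G.g (max n m) ≤ G.g n := G.anti (le_max_left _ _)
lemma le_right (n m : ℕ) : G.g (max n m) ≤ G.g m := G.anti (le_max_right _ _)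

def setoid : Setoid ℕ where
  r i j := ∃ n, feq (G.e i).1 (G.e j).1 (G.g n)
  iseqv := ⟨fun _ => ⟨0, feq.refl _ _⟩, fun ⟨n, h⟩ => ⟨n, h.symm⟩,
    fun ⟨n, h⟩ ⟨m, h'⟩ => ⟨max n m, (h.mono (G.le_left n m)).trans (h'.mono (G.le_right n m))⟩⟩

/-- The underlying type of the generic model. -/
def M : Type := Quotient G.setoid

def cl (i : ℕ) : G.M := Quotient.mk G.setoid i

lemma cl_surj (x : G.M) : ∃ i, G.cl i = x := Quotient.exists_rep x

lemma cl_eq {i j : ℕ} : G.cl i = G.cl j ↔ ∃ n, feq (G.e i).1 (G.e j).1 (G.g n) :=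
  Quotient.eq

/-- The membership relation of the generic model. -/
def E (x y : G.M) : Prop :=
  ∃ i j n, G.cl i = x ∧ G.cl j = y ∧ fmem (G.e i).1 (G.e j).1 (G.g n)

lemma E_cl {i j : ℕ} : G.E (G.cl i) (G.cl j) ↔ ∃ n, fmem (G.e i).1 (G.e j).1 (G.g n) := by
  constructor
  · rintro ⟨i', j', n, h1, h2, h⟩
    obtain ⟨a, ha⟩ := G.cl_eq.mp h1
    obtain ⟨b, hb⟩ := G.cl_eq.mp h2
    refine ⟨max n (max a b), ?_⟩
    exact ((h.mono (G.le_left _ _)).congr_left
      (ha.mono ((G.le_right _ _).trans (G.le_left _ _)))).congr_right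
      (hb.mono ((G.le_right _ _).trans (G.le_right _ _)))
  · rintro ⟨n, h⟩
    exact ⟨i, j, n, rfl, rfl, h⟩

lemma tuple_surj {n : ℕ} (xs : Fin n → G.M) : ∃ is : Fin n → ℕ, G.cl ∘ is = xs := by
  choose is h using fun i => G.cl_surj (xs i)
  exact ⟨is, funext h⟩

end Gen

/-! ### The standard tasks -/

abbrev BF (n : ℕ) : Type := setLang.BoundedFormula Empty n

instance : Countable setLang.Symbols := by
  have : ∀ l, Countable (setLang.Functions l) := fun _ => inferInstanceAs (Countable Empty)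
  have : ∀ l, Subsingleton (setLang.Relations l) := fun _ => ⟨by rintro ⟨⟩ ⟨⟩; rfl⟩
  unfold Language.Symbols
  infer_instance

instance (n : ℕ) : Countable (BF n) :=
  (sigma_mk_injective (β := fun n => setLang.BoundedFormula Empty n) (i := n)).countable

variable (Γ P)

def opT (ι : Type) [Finite ι] (op : (ι → HSName Γ P) → HSName Γ P) : Task (HSName Γ P) P :=
  ⟨ι, inferInstance, fun xs y _ => y = op xs⟩

def memT : Task (HSName Γ P) P :=
  ⟨Bool, inferInstance, fun xs y q => ∃ i, y = (xs false).elem i ∧ q ∈ (xs false).1.v i ∧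
    feq (xs true).1 y.1 q⟩

def unT : Task (HSName Γ P) P :=
  ⟨Bool, inferInstance, fun xs y q => fmem y.1 (xs false).1 q ∧ fmem (xs true).1 y.1 q⟩

def subT : Task (HSName Γ P) P :=
  ⟨Bool, inferInstance, fun xs w q => fmem w.1 (xs true).1 q ∧ ∀ r ≤ q, ¬ fmem w.1 (xs false).1 r⟩

def decT {n : ℕ} (φ : BF n) : Task (HSName Γ P) P :=
  ⟨Fin n, inferInstance, fun xs _ q => frc φ xs q⟩

def allT {n : ℕ} (φ : BF (n + 1)) : Task (HSName Γ P) P :=
  ⟨Fin n, inferInstance, fun xs y q => ∀ r ≤ q, ¬ frc φ (Fin.snoc xs y) r⟩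

def collT {n : ℕ} (φ : BF (n + 2)) : Task (HSName Γ P) P :=
  ⟨Fin n ⊕ Bool, inferInstance, fun xs y q =>
    fmem y.1 (coll (xs (.inr false))
      fun u y p => frc φ (Fin.snoc (Fin.snoc (xs ∘ Sum.inl) u) y) p).1 q ∧
    frc φ (Fin.snoc (Fin.snoc (xs ∘ Sum.inl) (xs (.inr true))) y) q⟩

def imgT {n : ℕ} (φ : BF (n + 2)) : Task (HSName Γ P) P :=
  ⟨Fin n ⊕ Bool, inferInstance, fun xs u q =>
    fmem u.1 (xs (.inr false)).1 q ∧
    frc φ (Fin.snoc (Fin.snoc (xs ∘ Sum.inl) u) (xs (.inr true))) q⟩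

def upairT : Task (HSName Γ P) P := opT Γ P Bool fun xs => upair (xs true) (xs false)
def unionT : Task (HSName Γ P) P := opT Γ P Unit fun xs => union (xs ())
def powT : Task (HSName Γ P) P := opT Γ P Unit fun xs => pow (xs ())
def constT (x : HSName Γ P) : Task (HSName Γ P) P := opT Γ P Empty fun _ => x
def sepT {n : ℕ} (φ : BF (n + 1)) : Task (HSName Γ P) P :=
  opT Γ P (Fin n ⊕ Unit) fun xs => sep (xs (.inr ())) (formulaPred φ (xs ∘ Sum.inl))
noncomputable def replT {n : ℕ} (φ : BF (n + 2)) : Task (HSName Γ P) P :=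
  opT Γ P (Fin n ⊕ Unit) fun xs => repl φ (xs ∘ Sum.inl) (xs (.inr ()))

def stdTasks : Set (Task (HSName Γ P) P) :=
  {memT Γ P, unT Γ P, subT Γ P, upairT Γ P, unionT Γ P, powT Γ P, constT Γ P omegaH} ∪
  Set.range (fun n => constT Γ P (natH n)) ∪
  Set.range (fun x : Σ n, BF n => decT Γ P x.2) ∪
  Set.range (fun x : Σ n, BF (n + 1) => allT Γ P x.2) ∪
  Set.range (fun x : Σ n, BF (n + 1) => sepT Γ P x.2) ∪
  Set.range (fun x : Σ n, BF (n + 2) => collT Γ P x.2) ∪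
  Set.range (fun x : Σ n, BF (n + 2) => imgT Γ P x.2) ∪
  Set.range (fun x : Σ n, BF (n + 2) => replT Γ P x.2)

lemma stdTasks_countable : (stdTasks Γ P).Countable := by
  unfold stdTasks
  refine ((((((Set.Countable.union ?_ ?_).union ?_).union ?_).union ?_).union ?_).union ?_).union ?_
  · exact (Set.toFinite _).countable
  all_goals exact Set.countable_range _

variable {Γ P}

/-- The generic object meets all standard tasks. -/
structure Gen.IsGeneric (G : Gen (HSName Γ P) P) : Prop where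
  mem : G.Meets (memT Γ P)
  un : G.Meets (unT Γ P)
  sub : G.Meets (subT Γ P)
  upair : G.Meets (upairT Γ P)
  union : G.Meets (unionT Γ P)
  pow : G.Meets (powT Γ P)
  omega : G.Meets (constT Γ P omegaH)
  nat : ∀ n, G.Meets (constT Γ P (natH n))
  dec : ∀ {n} (φ : BF n), G.Meets (decT Γ P φ)
  all : ∀ {n} (φ : BF (n + 1)), G.Meets (allT Γ P φ)
  sep : ∀ {n} (φ : BF (n + 1)), G.Meets (sepT Γ P φ)
  coll : ∀ {n} (φ : BF (n + 2)), G.Meets (collT Γ P φ)
  img : ∀ {n} (φ : BF (n + 2)), G.Meets (imgT Γ P φ)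
  repl : ∀ {n} (φ : BF (n + 2)), G.Meets (replT Γ P φ)

theorem exists_generic [Nonempty P] (𝒯 : Set (Task (HSName Γ P) P)) (h𝒯 : 𝒯.Countable) :
    ∃ G : Gen (HSName Γ P) P, G.IsGeneric ∧ ∀ T ∈ 𝒯, G.Meets T := by
  obtain ⟨G, hG⟩ := exists_gen (stdTasks Γ P ∪ 𝒯) ((stdTasks_countable Γ P).union h𝒯)
  refine ⟨G, ?_, fun T hT => hG T (Or.inr hT)⟩
  have h : ∀ T ∈ stdTasks Γ P, G.Meets T := fun T hT => hG T (Or.inl hT)
  unfold stdTasks at h
  simp only [Set.mem_union, Set.mem_insert_iff, Set.mem_singleton_iff, Set.mem_range,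
    or_imp, forall_and, forall_eq, forall_exists_index, forall_apply_eq_imp_iff] at h
  obtain ⟨⟨⟨⟨⟨⟨⟨⟨h1, h2, h3, h4, h5, h6, h7⟩, h8⟩, h9⟩, h10⟩, h11⟩, h12⟩, h13⟩, h14⟩ := h
  exact ⟨h1, h2, h3, h4, h5, h6, h7, h8, fun φ => h9 ⟨_, φ⟩, fun φ => h10 ⟨_, φ⟩,
    fun φ => h11 ⟨_, φ⟩, fun φ => h12 ⟨_, φ⟩, fun φ => h13 ⟨_, φ⟩, fun φ => h14 ⟨_, φ⟩⟩

lemma Gen.Meets.op {G : Gen (HSName Γ P) P} {ι : Type} [Finite ι]
    {op : (ι → HSName Γ P) → HSName Γ P} (h : G.Meets (opT Γ P ι op)) (xs : ι → ℕ) :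
    ∃ j, G.e j = op (G.e ∘ xs) := by
  obtain ⟨_, j, hj⟩ := h.of_dn xs (m := 0) (Dn.of_all fun _ _ => ⟨_, rfl⟩)
  exact ⟨j, hj⟩

lemma Gen.Meets.const {G : Gen (HSName Γ P) P} {x : HSName Γ P} (h : G.Meets (constT Γ P x)) :
    ∃ j, G.e j = x := Gen.Meets.op h Empty.elim

end Pool.Agent.Lib.MP_e3c3cf_lc
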