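import Pool.Agent.Lib.MP_e3c3cf_lc.AtomNames

/-!
In the generic symmetric model the square of the infinite set `A` maps onto its partitions.
-/

namespace Pool.Agent.Lib.MP_e3c3cf_lc

open Name

section pure
variable {M : Type} {E : M → M → Prop}

lemma IsOPair.unique (hM : IsModelZF E) {a b p p' : M} (h : IsOPair E a b p)
    (h' : IsOPair E a b p') : p = p' :=
  hM.extensionality _ _ fun z => (h z).trans (h' z).symm

lemma IsOPair.inj (hM : IsModelZF E) {a b a' b' p : M} (h : IsOPair E a b p)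
    (h' : IsOPair E a' b' p) : a = a' ∧ b = b' := by
  have key : ∀ {a b a' b' : M}, IsOPair E a b p → IsOPair E a' b' p →
      a = a' ∧ (b = a ∨ b = b') := by
    intro a b a' b' h h'
    obtain ⟨s, hs⟩ := hM.pairing a a
    obtain ⟨t, ht⟩ := hM.pairing a b
    have e1 : a = a' := by
      rcases (h' s).mp ((h s).mpr (Or.inl fun w => by simpa using hs w)) with h1 | h1
      · exact (h1 a).mp ((hs a).mpr (Or.inl rfl))
      · exact ((hs a').mp ((h1 a').mpr (Or.inl rfl))).elim Eq.symm Eq.symm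
    refine ⟨e1, ?_⟩
    rcases (h' t).mp ((h t).mpr (Or.inr ht)) with h1 | h1
    · exact Or.inl (((h1 b).mp ((ht b).mpr (Or.inr rfl))).trans e1.symm)
    · rcases (h1 b).mp ((ht b).mpr (Or.inr rfl)) with h2 | h2
      · exact Or.inl (h2.trans e1.symm)
      · exact Or.inr h2
  obtain ⟨e1, e2⟩ := key h h'
  obtain ⟨_, e3⟩ := key h' h
  refine ⟨e1, ?_⟩
  rcases e2 with e2 | e2
  · rcases e3 with e3 | e3
    · rw [e2, e3, e1]
    · exact e3.symm
  · exact e2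

lemma partition_ext (hM : IsModelZF E) {A P Q : M} (hP : IsPartition E A P)
    (hQ : IsPartition E A Q)
    (h : ∀ a b, E a A → E b A → ((∃ X, E X P ∧ E a X ∧ E b X) ↔ ∃ Y, E Y Q ∧ E a Y ∧ E b Y)) :
    P = Q := by
  have key : ∀ {P Q : M}, IsPartition E A P → IsPartition E A Q →
      (∀ a b, E a A → E b A → ((∃ X, E X P ∧ E a X ∧ E b X) ↔ ∃ Y, E Y Q ∧ E a Y ∧ E b Y)) →
      ∀ X, E X P → E X Q := by
    intro P Q hP hQ h X hX
    obtain ⟨⟨a, ha⟩, hXA⟩ := hP.1 X hX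
    obtain ⟨Y, hY, haY⟩ := hQ.2.2 a (hXA a ha)
    have : X = Y := by
      apply hM.extensionality
      intro w
      constructor
      · intro hw
        obtain ⟨Y', hY', h1, h2⟩ := (h a w (hXA a ha) (hXA w hw)).mp ⟨X, hX, ha, hw⟩
        by_cases e : Y = Y'
        · rwa [e]
        · exact absurd ⟨a, haY, h1⟩ (hQ.2.1 Y Y' hY hY' e)
      · intro hw
        obtain ⟨X', hX', h1, h2⟩ :=
          (h a w (hXA a ha) ((hQ.1 Y hY).2 w hw)).mpr ⟨Y, hY, haY, hw⟩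
        by_cases e : X = X'
        · rwa [e]
        · exact absurd ⟨a, ha, h1⟩ (hP.2.1 X X' hX hX' e)
    rwa [this]
  exact hM.extensionality _ _ fun X =>
    ⟨key hP hQ h X, key hQ hP (fun a b ha hb => (h a b ha hb).symm) X⟩

end pure

section generic
variable {Γ P : Type} [Preorder P] [Group Γ] [MulAction Γ P] [S : SymSys Γ P]
  {G : Gen (HSName Γ P) P}

lemma Gen.cl_eq_of_name {i j : ℕ} (h : (G.e i).1 = (G.e j).1) : G.cl i = G.cl j :=
  G.cl_eq.mpr ⟨0, feq.of_eq h _⟩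

lemma Gen.IsGeneric.isOPair (h : G.IsGeneric) {i j k : ℕ}
    (hk : (G.e k).1 = opairN (G.e i).1 (G.e j).1) : IsOPair G.E (G.cl i) (G.cl j) (G.cl k) := by
  obtain ⟨k1, h1⟩ := h.exists_upair i i
  obtain ⟨k2, h2⟩ := h.exists_upair i j
  have hk' : (G.e k).1 = upairN (G.e k1).1 (G.e k2).1 := by rw [hk, h1, h2]; rfl
  intro z
  rw [h.E_upair hk']
  apply or_congr
  · constructor
    · rintro rfl w
      simpa using h.E_upair h1 w
    · intro hz
      exact h.ext _ _ fun w => (hz w).trans (by simpa using (h.E_upair h1 w).symm)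
  · constructor
    · rintro rfl w
      exact h.E_upair h2 w
    · intro hz
      exact h.ext _ _ fun w => (hz w).trans (h.E_upair h2 w).symm

lemma Gen.IsGeneric.exists_opair (h : G.IsGeneric) (i j : ℕ) :
    ∃ k, (G.e k).1 = opairN (G.e i).1 (G.e j).1 := by
  obtain ⟨k1, h1⟩ := h.exists_upair i i
  obtain ⟨k2, h2⟩ := h.exists_upair i j
  obtain ⟨k, hk⟩ := h.exists_upair k1 k2
  exact ⟨k, by rw [hk, h1, h2]; rfl⟩

end generic

/-- The condition forces `w` to be a common element of distinct elements `y`, `y'` of `x`. -/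
def bad (x y y' w : HN) (q : Cond) : Prop :=
  fmem y.1 x.1 q ∧ fmem y'.1 x.1 q ∧ fmem w.1 y.1 q ∧ fmem w.1 y'.1 q ∧
    ∀ r ≤ q, ¬ feq y.1 y'.1 r

lemma bad.mono {x y y' w : HN} {q r : Cond} (h : bad x y y' w q) (hr : r ≤ q) : bad x y y' w r :=
  ⟨h.1.mono hr, h.2.1.mono hr, h.2.2.1.mono hr, h.2.2.2.1.mono hr,
    fun s hs => h.2.2.2.2 s (hs.trans hr)⟩

def bad1T : Task HN Cond := ⟨Unit, inferInstance, fun xs y q => ∃ y' w, bad (xs ()) y y' w q⟩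
def bad2T : Task HN Cond :=
  ⟨Fin 2, inferInstance, fun xs y' q => ∃ w, bad (xs 0) (xs 1) y' w q⟩
def bad3T : Task HN Cond := ⟨Fin 3, inferInstance, fun xs w q => bad (xs 0) (xs 1) (xs 2) w q⟩

def totT (H : Enum) (z : Atom × Atom) : Task HN Cond :=
  ⟨Empty, inferInstance, fun _ y q => ∃ w, q.fn (.pair z.1 z.2) = some w ∧ y.1 = partN (H.val w)⟩

def surT (H : Enum) : Task HN Cond :=
  ⟨Unit, inferInstance, fun xs _ q => ∃ a b w, q.fn (.pair a b) = some w ∧ H.val w = uOf (xs ())⟩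

section main

variable {G : Gen HN Cond} (h : G.IsGeneric) {α : Atom → ℕ} (hα : ∀ a, (G.e (α a)).1 = atomN a)
  {iA : ℕ} (hA : (G.e iA).1 = setAN)

lemma entry_unique (G : Gen HN Cond) {d : Idx} {w w' : Val} {m n : ℕ}
    (h1 : (G.g m).fn d = some w) (h2 : (G.g n).fn d = some w') : w = w' := by
  have e1 := G.le_left m n _ _ h1
  have e2 := G.le_right m n _ _ h2
  rw [e1] at e2
  exact Option.some.inj e2

include hα in
lemma atom_inj {a b : Atom} (e : G.cl (α a) = G.cl (α b)) : a = b := by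
  obtain ⟨n, hn⟩ := G.cl_eq.mp e
  rw [hα, hα] at hn
  exact atomN_inj hn

include h hα

include hA in
lemma E_setA (z : G.M) : G.E z (G.cl iA) ↔ ∃ a, z = G.cl (α a) := by
  constructor
  · intro hz
    obtain ⟨a, k, m, h1, _, rfl⟩ := h.elem_of_E' hA hz
    exact ⟨a, Gen.cl_eq_of_name (by rw [h1, hα])⟩
  · rintro ⟨a, rfl⟩
    exact Gen.IsGeneric.E_of_elem (m := 0) hA a (hα a) trivial

lemma E_cls {u : FEq} {b : Atom} {k : ℕ} (hk : (G.e k).1 = clsN u b) (z : G.M) :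
    G.E z (G.cl k) ↔ ∃ c m, z = G.cl (α c) ∧ u.rel b c (G.g m) := by
  constructor
  · intro hz
    obtain ⟨c, l, m, h1, h2, rfl⟩ := h.elem_of_E' hk hz
    exact ⟨c, m, Gen.cl_eq_of_name (by rw [h1, hα]), h2⟩
  · rintro ⟨c, m, rfl, hm⟩
    exact Gen.IsGeneric.E_of_elem (m := m) hk c (hα c) hm

lemma E_cls_atom {u : FEq} {b : Atom} {k : ℕ} (hk : (G.e k).1 = clsN u b) (c : Atom) :
    G.E (G.cl (α c)) (G.cl k) ↔ ∃ m, u.rel b c (G.g m) := by
  rw [E_cls h hα hk]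
  constructor
  · rintro ⟨c', m, e, hm⟩
    rw [atom_inj hα e]
    exact ⟨m, hm⟩
  · rintro ⟨m, hm⟩
    exact ⟨c, m, rfl, hm⟩

omit hα in
lemma E_part {u : FEq} {k : ℕ} (hk : (G.e k).1 = partN u) {Y : G.M} (hY : G.E Y (G.cl k)) :
    ∃ b l, (G.e l).1 = clsN u b ∧ Y = G.cl l := by
  obtain ⟨b, l, m, h1, _, rfl⟩ := h.elem_of_E' hk hY
  exact ⟨b, l, h1, rfl⟩

omit h hα in
lemma rel_trans {u : FEq} {a b c : Atom} (h1 : ∃ m, u.rel a b (G.g m))
    (h2 : ∃ m, u.rel a c (G.g m)) : ∃ m, u.rel b c (G.g m) := by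
  obtain ⟨m, hm⟩ := h1
  obtain ⟨n, hn⟩ := h2
  exact ⟨max m n, u.trans (u.symm (u.mono hm (G.le_left _ _))) (u.mono hn (G.le_right _ _))⟩

lemma part_cover {u : FEq} {k : ℕ} (hk : (G.e k).1 = partN u) (b : Atom) :
    ∃ Y, G.E Y (G.cl k) ∧ G.E (G.cl (α b)) Y := by
  have hs : HS Grp (partN u) := hk ▸ (G.e k).2
  apply h.exists_mid (n := 0)
  refine Dn.of_all fun q _ => ⟨⟨clsN u b, hs.elem b⟩, ?_, ?_⟩
  · rw [hk]; exact fmem.self (x := partN u) b trivial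
  · rw [hα]; exact fmem.self (x := clsN u b) b (u.refl b q)

lemma part_rel {u : FEq} {k : ℕ} (hk : (G.e k).1 = partN u) (b c : Atom) :
    (∃ Y, G.E Y (G.cl k) ∧ G.E (G.cl (α b)) Y ∧ G.E (G.cl (α c)) Y) ↔
      ∃ m, u.rel b c (G.g m) := by
  constructor
  · rintro ⟨Y, hY, h1, h2⟩
    obtain ⟨a, l, hl, rfl⟩ := E_part h hk hY
    exact rel_trans ((E_cls_atom h hα hl b).mp h1) ((E_cls_atom h hα hl c).mp h2)
  · intro hm
    obtain ⟨Y, hY, h1⟩ := part_cover h hα hk b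
    refine ⟨Y, hY, h1, ?_⟩
    obtain ⟨a, l, hl, rfl⟩ := E_part h hk hY
    obtain ⟨n, hn⟩ := (E_cls_atom h hα hl b).mp h1
    exact (E_cls_atom h hα hl c).mpr (rel_trans ⟨n, u.symm hn⟩ hm)

include hA in
lemma part_isPartition {u : FEq} {k : ℕ} (hk : (G.e k).1 = partN u) :
    IsPartition G.E (G.cl iA) (G.cl k) := by
  refine ⟨?_, ?_, ?_⟩
  · intro X hX
    obtain ⟨b, l, hl, rfl⟩ := E_part h hk hX
    refine ⟨⟨G.cl (α b), (E_cls_atom h hα hl b).mpr ⟨0, u.refl _ _⟩⟩, fun w hw => ?_⟩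
    obtain ⟨c, _, rfl, _⟩ := (E_cls h hα hl w).mp hw
    exact (E_setA h hα hA _).mpr ⟨c, rfl⟩
  · rintro X Y hX hY hne ⟨w, h1, h2⟩
    obtain ⟨b, l, hl, rfl⟩ := E_part h hk hX
    obtain ⟨b', l', hl', rfl⟩ := E_part h hk hY
    obtain ⟨c, m, rfl, hm⟩ := (E_cls h hα hl w).mp h1
    obtain ⟨n, hn⟩ := (E_cls_atom h hα hl' c).mp h2
    have hbb : ∃ m, u.rel b b' (G.g m) := rel_trans ⟨m, u.symm hm⟩ ⟨n, u.symm hn⟩
    apply hne
    apply h.ext
    intro z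
    rw [E_cls h hα hl, E_cls h hα hl']
    constructor
    · rintro ⟨d, j, rfl, hj⟩
      obtain ⟨i, hi⟩ := rel_trans hbb ⟨j, hj⟩
      exact ⟨d, i, rfl, hi⟩
    · rintro ⟨d, j, rfl, hj⟩
      obtain ⟨i, hi⟩ := hbb
      obtain ⟨i', hi'⟩ := rel_trans ⟨i, u.symm hi⟩ ⟨j, hj⟩
      exact ⟨d, i', rfl, hi'⟩
  · intro a ha
    obtain ⟨b, rfl⟩ := (E_setA h hα hA a).mp ha
    exact part_cover h hα hk b

omit h hα in
lemma good_of_disjoint (b1 : G.Meets bad1T) (b2 : G.Meets bad2T) (b3 : G.Meets bad3T) {i : ℕ}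
    (hd : ∀ X Y, G.E X (G.cl i) → G.E Y (G.cl i) → X ≠ Y → ¬ ∃ w, G.E w X ∧ G.E w Y) :
    ∃ m, good (G.e i) (G.g m) := by
  rcases b1 (fun _ => i) with ⟨m, j, y', w, h1⟩ | ⟨m, hm⟩
  · exfalso
    obtain ⟨n, k, w', h2⟩ := b2.of_dn ![i, j] (m := m)
      (Dn.of_all fun q hq => ⟨y', w, bad.mono h1 hq⟩)
    obtain ⟨o, l, h3⟩ := b3.of_dn ![i, j, k] (m := n)
      (Dn.of_all fun q hq => ⟨w', bad.mono h2 hq⟩)
    refine hd (G.cl j) (G.cl k) (G.E_cl.mpr ⟨o, h3.1⟩) (G.E_cl.mpr ⟨o, h3.2.1⟩) ?_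
      ⟨G.cl l, G.E_cl.mpr ⟨o, h3.2.2.1⟩, G.E_cl.mpr ⟨o, h3.2.2.2.1⟩⟩
    intro e
    obtain ⟨t, ht⟩ := G.cl_eq.mp e
    exact h3.2.2.2.2 _ (G.le_left o t) (ht.mono (G.le_right _ _))
  · refine ⟨m, fun q hq y y' w h1 h2 h3 h4 => feq.reg fun r hr => ?_⟩
    by_contra hc
    push Not at hc
    exact hm r (hr.trans hq) y ⟨y', w, h1.mono hr, h2.mono hr, h3.mono hr, h4.mono hr, hc⟩

include hA in
lemma eq_part_of_partition (b1 : G.Meets bad1T) (b2 : G.Meets bad2T) (b3 : G.Meets bad3T)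
    {i k : ℕ} (hi : IsPartition G.E (G.cl iA) (G.cl i)) (hk : (G.e k).1 = partN (uOf (G.e i))) :
    G.cl i = G.cl k := by
  obtain ⟨m, hm⟩ := good_of_disjoint b1 b2 b3 hi.2.1
  apply partition_ext h.isModelZF hi (part_isPartition h hα hA hk)
  intro a b ha hb
  obtain ⟨a, rfl⟩ := (E_setA h hα hA a).mp ha
  obtain ⟨b, rfl⟩ := (E_setA h hα hA b).mp hb
  rw [part_rel h hα hk]
  constructor
  · rintro ⟨X, hX, h1, h2⟩
    obtain ⟨l, rfl⟩ := G.cl_surj X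
    obtain ⟨n1, e1⟩ := G.E_cl.mp hX
    obtain ⟨n2, e2⟩ := G.E_cl.mp h1
    obtain ⟨n3, e3⟩ := G.E_cl.mp h2
    rw [hα] at e2 e3
    refine ⟨max (max m n1) (max n2 n3), Dn.of_all fun q hq => Or.inr ⟨?_, G.e l, ?_, ?_, ?_⟩⟩
    · exact hm.mono (hq.trans ((G.le_left _ _).trans (G.le_left _ _)))
    · exact e1.mono (hq.trans ((G.le_left _ _).trans (G.le_right _ _)))
    · exact e2.mono (hq.trans ((G.le_right _ _).trans (G.le_left _ _)))
    · exact e3.mono (hq.trans ((G.le_right _ _).trans (G.le_right _ _)))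
  · rintro ⟨n, hn⟩
    obtain ⟨X, hX, h1⟩ := hi.2.2 _ ha
    refine ⟨X, hX, h1, ?_⟩
    obtain ⟨l, rfl⟩ := G.cl_surj X
    obtain ⟨n1, e1⟩ := G.E_cl.mp hX
    obtain ⟨n2, e2⟩ := G.E_cl.mp h1
    rw [hα] at e2
    refine G.E_cl.mpr ⟨max n (max n1 n2), ?_⟩
    rw [hα]
    have l1 := (G.le_right n (max n1 n2)).trans (G.le_left n1 n2)
    have l2 := (G.le_right n (max n1 n2)).trans (G.le_right n1 n2)
    apply fmem.reg
    refine Dn.imp (Dn.mono hn (G.le_left _ _)) ?_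
    rintro r hr (rfl | ⟨g1, y, f1, f2, f3⟩)
    · exact e2.mono (hr.trans l2)
    · exact f3.congr_right (g1 r le_rfl y (G.e l) (atomH a) f1 (e1.mono (hr.trans l1)) f2
        (e2.mono (hr.trans l2)))

include hA in
lemma setA_infinite : IsInfinite G.E (G.cl iA) := by
  rintro ⟨n, g, hn, ⟨h1, h2, h3⟩, _⟩
  have hM := h.isModelZF
  have key : ∀ a : Atom, ∃ x, G.E x n ∧ Maps G.E g x (G.cl (α a)) := by
    intro a
    obtain ⟨x, p, hp, hx⟩ := h3 _ ((E_setA h hα hA _).mpr ⟨a, rfl⟩)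
    obtain ⟨x', y', e1, _, e3⟩ := h1 p hp
    exact ⟨x, (hx.inj hM e3).1 ▸ e1, p, hp, hx⟩
  choose x hx1 hx2 using key
  have hinj : Function.Injective x := by
    intro a b e
    apply atom_inj hα
    exact (h2 _ (hx1 a)).unique (hx2 a) (e ▸ hx2 b)
  exact Set.infinite_range_of_injective hinj
    ((h.finite_of_isNat hn).subset (by rintro _ ⟨a, rfl⟩; exact hx1 a))

end main

theorem exists_model : ∃ (M : Type) (E : M → M → Prop), IsModelZF E ∧
    ∃ A S Q f : M, IsInfinite E A ∧ IsSquare E A S ∧ IsPartitionSet E A Q ∧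
      IsSurjection E f S Q := by
  obtain ⟨h0, h1, h2⟩ := exists_equivariant_enum
  let H : Enum := ⟨h0, h1, h2⟩
  obtain ⟨G, h, hT⟩ := exists_generic (Γ := Grp) (P := Cond)
    ({bad1T, bad2T, bad3T, surT H, constT Grp Cond ⟨setAN, HS_setAN⟩,
      constT Grp Cond ⟨squareN, HS_squareN⟩, constT Grp Cond ⟨H.rangeN, H.HS_rangeN⟩,
      constT Grp Cond ⟨H.funN, H.HS_funN⟩} ∪ Set.range (totT H) ∪
      Set.range (fun a => constT Grp Cond (atomH a)))
    (((Set.toFinite _).countable.union (Set.countable_range _)).union (Set.countable_range _))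
  simp only [Set.mem_union, Set.mem_insert_iff, Set.mem_singleton_iff, Set.mem_range,
    or_imp, forall_and, forall_eq, forall_exists_index, forall_apply_eq_imp_iff] at hT
  obtain ⟨⟨⟨b1, b2, b3, hsur, cA, cS, cQ, cF⟩, htot⟩, hat⟩ := hT
  have hM := h.isModelZF
  obtain ⟨iA, hA⟩ := cA.const
  obtain ⟨iS, hS⟩ := cS.const
  obtain ⟨iQ, hQ⟩ := cQ.const
  obtain ⟨iF, hF⟩ := cF.const
  replace hA : (G.e iA).1 = setAN := by rw [hA]
  replace hS : (G.e iS).1 = squareN := by rw [hS]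
  replace hQ : (G.e iQ).1 = H.rangeN := by rw [hQ]
  replace hF : (G.e iF).1 = H.funN := by rw [hF]
  choose α hα using fun a => (hat a).const
  replace hα : ∀ a, (G.e (α a)).1 = atomN a := fun a => by rw [hα]; rfl
  choose sq hsq using fun a b => h.exists_opair (α a) (α b)
  have hsq' : ∀ a b, (G.e (sq a b)).1 = sqN a b := fun a b => by rw [hsq, hα, hα]; rfl
  have hsqp : ∀ a b, IsOPair G.E (G.cl (α a)) (G.cl (α b)) (G.cl (sq a b)) :=
    fun a b => h.isOPair (hsq a b)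
  have tot : ∀ a b, ∃ m j w, (G.g m).fn (.pair a b) = some w ∧ (G.e j).1 = partN (H.val w) := by
    intro a b
    refine (htot (a, b)).of_dn Empty.elim (m := 0) fun q _ => ?_
    obtain ⟨r, hr, w, hw⟩ := dense_total a b q
    exact ⟨r, hr, ⟨_, H.HS_part w⟩, w, hw, rfl⟩
  choose m j w hw hj using tot
  have ES : ∀ p, G.E p (G.cl iS) ↔ ∃ a b, p = G.cl (sq a b) := by
    intro p
    constructor
    · intro hp
      obtain ⟨z, k, _, e, _, rfl⟩ := h.elem_of_E' hS hp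
      exact ⟨z.1, z.2, Gen.cl_eq_of_name (by rw [e, hsq'])⟩
    · rintro ⟨a, b, rfl⟩
      exact Gen.IsGeneric.E_of_elem (m := 0) hS (a, b) (hsq' a b) trivial
  have EQ : ∀ y, G.E y (G.cl iQ) ↔ ∃ a b, y = G.cl (j a b) := by
    intro y
    constructor
    · intro hy
      obtain ⟨⟨a, b, w'⟩, k, n, e, hn, rfl⟩ := h.elem_of_E' hQ hy
      obtain rfl : w' = w a b := entry_unique G hn (hw a b)
      exact ⟨a, b, Gen.cl_eq_of_name (by rw [e, hj])⟩
    · rintro ⟨a, b, rfl⟩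
      exact Gen.IsGeneric.E_of_elem (m := m a b) hQ (a, b, w a b) (hj a b) (hw a b)
  have EF : ∀ p, G.E p (G.cl iF) ↔ ∃ a b, IsOPair G.E (G.cl (sq a b)) (G.cl (j a b)) p := by
    intro p
    constructor
    · intro hp
      obtain ⟨⟨a, b, w'⟩, k, n, e, hn, rfl⟩ := h.elem_of_E' hF hp
      obtain rfl : w' = w a b := entry_unique G hn (hw a b)
      exact ⟨a, b, h.isOPair (by rw [e, hj, hsq'])⟩
    · rintro ⟨a, b, hp⟩
      obtain ⟨l, hl⟩ := h.exists_opair (sq a b) (j a b)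
      rw [hp.unique hM (h.isOPair hl)]
      exact Gen.IsGeneric.E_of_elem (m := m a b) hF (a, b, w a b) (by rw [hl, hj, hsq']) (hw a b)
  have MF : ∀ x y, Maps G.E (G.cl iF) x y ↔ ∃ a b, x = G.cl (sq a b) ∧ y = G.cl (j a b) := by
    intro x y
    constructor
    · rintro ⟨p, hp, hxy⟩
      obtain ⟨a, b, hab⟩ := (EF p).mp hp
      exact ⟨a, b, hxy.inj hM hab⟩
    · rintro ⟨a, b, rfl, rfl⟩
      obtain ⟨l, hl⟩ := h.exists_opair (sq a b) (j a b)
      exact ⟨G.cl l, (EF _).mpr ⟨a, b, h.isOPair hl⟩, h.isOPair hl⟩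
  refine ⟨G.M, G.E, hM, G.cl iA, G.cl iS, G.cl iQ, G.cl iF, setA_infinite h hα hA, ?_, ?_,
    ?_, ?_, ?_⟩
  · intro p
    rw [ES]
    constructor
    · rintro ⟨a, b, rfl⟩
      exact ⟨_, _, (E_setA h hα hA _).mpr ⟨a, rfl⟩, (E_setA h hα hA _).mpr ⟨b, rfl⟩, hsqp a b⟩
    · rintro ⟨x, y, hx, hy, hp⟩
      obtain ⟨a, rfl⟩ := (E_setA h hα hA _).mp hx
      obtain ⟨b, rfl⟩ := (E_setA h hα hA _).mp hy
      exact ⟨a, b, hp.unique hM (hsqp a b)⟩
  · intro y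
    rw [EQ]
    constructor
    · rintro ⟨a, b, rfl⟩
      exact part_isPartition h hα hA (hj a b)
    · intro hy
      obtain ⟨i, rfl⟩ := G.cl_surj y
      obtain ⟨n, _, a, b, w', e1, e2⟩ := hsur.of_dn (fun _ => i) (m := 0) (fun q _ => by
        obtain ⟨s, hs⟩ := exists_supp_uOf (G.e i)
        obtain ⟨ξ, hξ⟩ := H.surj s _ hs
        obtain ⟨r, hr, a, b, hab⟩ := dense_value ⟨s, ξ⟩ q
        exact ⟨r, hr, default, a, b, _, hab, hξ⟩)
      obtain rfl : w' = w a b := entry_unique G e1 (hw a b)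
      refine ⟨a, b, eq_part_of_partition h hα hA b1 b2 b3 hy ?_⟩
      rw [hj, e2]; rfl
  · intro p hp
    obtain ⟨a, b, hab⟩ := (EF p).mp hp
    exact ⟨_, _, (ES _).mpr ⟨a, b, rfl⟩, (EQ _).mpr ⟨a, b, rfl⟩, hab⟩
  · intro x hx
    obtain ⟨a, b, rfl⟩ := (ES x).mp hx
    refine ⟨G.cl (j a b), (MF _ _).mpr ⟨a, b, rfl, rfl⟩, fun y hy => ?_⟩
    obtain ⟨a', b', e, rfl⟩ := (MF _ _).mp hy
    have := (hsqp a b).inj hM (e ▸ hsqp a' b')
    rw [atom_inj hα this.1, atom_inj hα this.2]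
  · intro y hy
    obtain ⟨a, b, rfl⟩ := (EQ y).mp hy
    exact ⟨_, (MF _ _).mpr ⟨a, b, rfl, rfl⟩⟩

end Pool.Agent.Lib.MP_e3c3cf_lc
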