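import Pool.Agent.Lib.MP_e3c3cf_lc.Generic

/-!
The truth lemma, and the axioms of ZF in the generic symmetric model.
-/

open FirstOrder

namespace Pool.Agent.Lib.MP_e3c3cf_lc

open Name

variable {Γ P : Type} [Preorder P] [Group Γ] [MulAction Γ P] [S : SymSys Γ P]

lemma comp_snoc' {α β : Type*} {n : ℕ} (f : α → β) (xs : Fin n → α) (y : α) :
    f ∘ (Fin.snoc xs y : Fin (n + 1) → α) = Fin.snoc (f ∘ xs) (f y) := Fin.comp_snoc f xs y

namespace Gen.IsGeneric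

variable {G : Gen (HSName Γ P) P} (h : G.IsGeneric)
include h

theorem truth {n : ℕ} (φ : BF n) (xs : Fin n → ℕ) :
    Sat G.E φ (G.cl ∘ xs) ↔ ∃ m, frc φ (G.e ∘ xs) (G.g m) := by
  induction φ with
  | falsum => exact ⟨fun h => h.elim, fun ⟨_, h⟩ => h⟩
  | equal t₁ t₂ =>
    have : Sat G.E (.equal t₁ t₂) (G.cl ∘ xs) ↔ G.cl (xs (tvar t₁)) = G.cl (xs (tvar t₂)) := by
      unfold Sat Language.BoundedFormula.Realize
      rw [realize_tvar, realize_tvar]; rfl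
    rw [this, G.cl_eq]; rfl
  | rel R ts =>
    cases R
    have : Sat G.E (.rel MemRel.mem ts) (G.cl ∘ xs) ↔
        G.E (G.cl (xs (tvar (ts 0)))) (G.cl (xs (tvar (ts 1)))) := by
      unfold Sat Language.BoundedFormula.Realize
      simp only [realize_tvar]; rfl
    rw [this, G.E_cl]; rfl
  | imp φ ψ ih1 ih2 =>
    have : Sat G.E (.imp φ ψ) (G.cl ∘ xs) ↔
        (Sat G.E φ (G.cl ∘ xs) → Sat G.E ψ (G.cl ∘ xs)) := Iff.rfl
    rw [this, ih1, ih2]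
    constructor
    · intro h1
      rcases h.dec φ xs with ⟨m, _, hm⟩ | ⟨m, hm⟩
      · obtain ⟨k, hk⟩ := h1 ⟨m, hm⟩
        exact ⟨k, fun q hq _ => hk.mono hq⟩
      · exact ⟨m, fun q hq h2 => absurd h2 (hm q hq default)⟩
    · rintro ⟨m, hm⟩ ⟨k, hk⟩
      exact ⟨max m k, hm _ (G.le_left _ _) (hk.mono (G.le_right _ _))⟩
  | all φ ih =>
    have : Sat G.E (.all φ) (G.cl ∘ xs) ↔ ∀ y, Sat G.E φ (Fin.snoc (G.cl ∘ xs) y) := Iff.rfl
    rw [this]
    constructor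
    · intro h1
      rcases h.all φ xs with ⟨m, j, hm⟩ | ⟨m, hm⟩
      · have h2 := h1 (G.cl j)
        rw [← comp_snoc', ih, comp_snoc'] at h2
        obtain ⟨k, hk⟩ := h2
        exact absurd (hk.mono (G.le_right m k)) (hm _ (G.le_left _ _))
      · refine ⟨m, fun y => frc.reg fun q hq => ?_⟩
        by_contra hc
        push Not at hc
        exact hm q hq y hc
    · rintro ⟨m, hm⟩ y
      obtain ⟨j, rfl⟩ := G.cl_surj y
      rw [← comp_snoc', ih, comp_snoc']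
      exact ⟨m, hm _⟩

lemma truth1 {n : ℕ} (φ : BF (n + 1)) (xs : Fin n → ℕ) (j : ℕ) :
    Sat G.E φ (Fin.snoc (G.cl ∘ xs) (G.cl j)) ↔
      ∃ m, frc φ (Fin.snoc (G.e ∘ xs) (G.e j)) (G.g m) := by
  rw [← comp_snoc', h.truth, comp_snoc']

lemma truth2 {n : ℕ} (φ : BF (n + 2)) (xs : Fin n → ℕ) (i j : ℕ) :
    Sat G.E φ (Fin.snoc (Fin.snoc (G.cl ∘ xs) (G.cl i)) (G.cl j)) ↔
      ∃ m, frc φ (Fin.snoc (Fin.snoc (G.e ∘ xs) (G.e i)) (G.e j)) (G.g m) := by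
  rw [← comp_snoc', h.truth1, comp_snoc']

/-- Every element of a set of the model comes from the name of that set. -/
lemma elem_of_E {z : G.M} {j : ℕ} (hz : G.E z (G.cl j)) :
    ∃ (i : (G.e j).1.ι) (k m : ℕ), G.e k = (G.e j).elem i ∧ G.g m ∈ (G.e j).1.v i ∧
      z = G.cl k := by
  obtain ⟨a, rfl⟩ := G.cl_surj z
  obtain ⟨n, hn⟩ := G.E_cl.mp hz
  obtain ⟨m, k, i, h1, h2, h3⟩ := h.mem.of_dn (fun b => cond b a j) (m := n)
    (Dn.imp hn fun r _ ⟨i, hi, e⟩ => ⟨(G.e j).elem i, i, rfl, hi, e⟩)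
  exact ⟨i, k, m, h1, h2, G.cl_eq.mpr ⟨m, h3⟩⟩

/-- The same for a name given explicitly. -/
lemma elem_of_E' {z : G.M} {j : ℕ} {ι : Type} {f : ι → Name P} {v : ι → LowerSet P}
    (hj : (G.e j).1 = .mk ι f v) (hz : G.E z (G.cl j)) :
    ∃ (i : ι) (k m : ℕ), (G.e k).1 = f i ∧ G.g m ∈ v i ∧ z = G.cl k := by
  obtain ⟨i, k, m, h1, h2, h3⟩ := h.elem_of_E hz
  have h4 : (G.e k).1 = (G.e j).1.f i := by rw [h1]; rfl
  clear h1
  generalize (G.e j).1 = x at hj i h2 h4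
  subst hj
  exact ⟨i, k, m, h4, h2, h3⟩

omit h in
lemma E_of_elem {j k m : ℕ} {ι : Type} {f : ι → Name P} {v : ι → LowerSet P}
    (hj : (G.e j).1 = .mk ι f v) (i : ι) (hk : (G.e k).1 = f i) (hm : G.g m ∈ v i) :
    G.E (G.cl k) (G.cl j) := by
  refine G.E_cl.mpr ⟨m, ?_⟩
  rw [hj, hk]
  exact fmem.self (x := .mk ι f v) i hm

lemma sub_iff (i j : ℕ) : (∀ w, G.E w (G.cl i) → G.E w (G.cl j)) ↔
    ∃ m, fsub Γ (G.e i).1 (G.e j).1 (G.g m) := by
  constructor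
  · intro h1
    rcases h.sub (fun b => cond b i j) with ⟨m, k, h2, h3⟩ | ⟨m, hm⟩
    · obtain ⟨n, hn⟩ := G.E_cl.mp (h1 _ (G.E_cl.mpr ⟨m, h2⟩))
      exact absurd (hn.mono (G.le_right m n)) (h3 _ (G.le_left _ _))
    · refine ⟨m, fun w q hq hw => fmem.reg fun r hr => ?_⟩
      by_contra hc
      push Not at hc
      exact hm r (hr.trans hq) w ⟨hw.mono hr, hc⟩
  · rintro ⟨m, hm⟩ w hw
    obtain ⟨k, rfl⟩ := G.cl_surj w
    obtain ⟨n, hn⟩ := G.E_cl.mp hw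
    exact G.E_cl.mpr ⟨max m n, hm _ _ (G.le_left _ _) (hn.mono (G.le_right _ _))⟩

lemma ext (x y : G.M) (e : ∀ z, G.E z x ↔ G.E z y) : x = y := by
  obtain ⟨i, rfl⟩ := G.cl_surj x
  obtain ⟨j, rfl⟩ := G.cl_surj y
  obtain ⟨m, hm⟩ := (h.sub_iff i j).mp fun w => (e w).mp
  obtain ⟨n, hn⟩ := (h.sub_iff j i).mp fun w => (e w).mpr
  exact G.cl_eq.mpr ⟨max m n, feq_of_fsub (hm.mono (G.le_left _ _)) (hn.mono (G.le_right _ _))⟩

lemma wf : WellFounded G.E := by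
  have key : ∀ (x : Name P) (j : ℕ), (G.e j).1 = x → Acc G.E (G.cl j) := by
    intro x
    induction x with
    | mk ι f v ih =>
      intro j hj
      refine Acc.intro _ fun z hz => ?_
      obtain ⟨i, k, m, h1, _, rfl⟩ := h.elem_of_E' hj hz
      exact ih i k h1
  refine ⟨fun x => ?_⟩
  obtain ⟨j, rfl⟩ := G.cl_surj x
  exact key _ j rfl

lemma E_upair {i j k : ℕ} (hk : (G.e k).1 = upairN (G.e i).1 (G.e j).1) (z : G.M) :
    G.E z (G.cl k) ↔ z = G.cl i ∨ z = G.cl j := by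
  constructor
  · intro hz
    obtain ⟨b, l, m, h1, _, rfl⟩ := h.elem_of_E' hk hz
    cases b
    · exact Or.inr (G.cl_eq.mpr ⟨0, feq.of_eq h1 _⟩)
    · exact Or.inl (G.cl_eq.mpr ⟨0, feq.of_eq h1 _⟩)
  · rintro (rfl | rfl)
    · exact E_of_elem (m := 0) hk true rfl trivial
    · exact E_of_elem (m := 0) hk false rfl trivial

lemma exists_upair (i j : ℕ) : ∃ k, (G.e k).1 = upairN (G.e i).1 (G.e j).1 := by
  obtain ⟨k, hk⟩ := Gen.Meets.op h.upair (fun b => cond b i j)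
  exact ⟨k, by rw [hk]; rfl⟩

lemma exists_mid {i j : ℕ} {n : ℕ}
    (hd : Dn (fun r => ∃ y : HSName Γ P, fmem y.1 (G.e j).1 r ∧ fmem (G.e i).1 y.1 r) (G.g n)) :
    ∃ y, G.E y (G.cl j) ∧ G.E (G.cl i) y := by
  obtain ⟨m, k, h1, h2⟩ := h.un.of_dn (fun b => cond b i j) (m := n) hd
  exact ⟨G.cl k, G.E_cl.mpr ⟨m, h1⟩, G.E_cl.mpr ⟨m, h2⟩⟩

lemma E_succ {j k : ℕ} (hk : (G.e k).1 = succN (G.e j).1) (w : G.M) :
    G.E w (G.cl k) ↔ G.E w (G.cl j) ∨ w = G.cl j := by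
  constructor
  · intro hw
    obtain ⟨o, l, m, h1, h2, rfl⟩ := h.elem_of_E' hk hw
    cases o with
    | none => exact Or.inr (G.cl_eq.mpr ⟨0, feq.of_eq h1 _⟩)
    | some i => exact Or.inl (G.E_cl.mpr ⟨m, fmem.intro i h2 (feq.of_eq h1 _)⟩)
  · obtain ⟨i, rfl⟩ := G.cl_surj w
    rw [G.E_cl, G.E_cl, G.cl_eq, hk]
    rintro (⟨m, hm⟩ | ⟨m, hm⟩)
    · exact ⟨m, fmem_succN.mpr (Dn.of_all fun q hq => Or.inl (hm.mono hq))⟩
    · exact ⟨m, fmem_succN.mpr (Dn.of_all fun q hq => Or.inr (hm.mono hq))⟩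

lemma exists_nat (n : ℕ) : ∃ k, (G.e k).1 = natN n := by
  obtain ⟨k, hk⟩ := (h.nat n).const
  exact ⟨k, by rw [hk]; rfl⟩

lemma omega_inductive {j : ℕ} (hj : (G.e j).1 = omegaN) : IsInductive G.E (G.cl j) := by
  constructor
  · obtain ⟨k, hk⟩ := h.exists_nat 0
    refine ⟨G.cl k, E_of_elem (m := 0) hj 0 hk trivial, fun w hw => ?_⟩
    obtain ⟨i, _⟩ := h.elem_of_E' hk hw
    exact i.elim
  · intro x hx
    obtain ⟨n, k, m, h1, _, rfl⟩ := h.elem_of_E' hj hx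
    obtain ⟨l, hl⟩ := h.exists_nat (n + 1)
    refine ⟨G.cl l, E_of_elem (m := 0) hj (n + 1) hl trivial, h.E_succ ?_⟩
    rw [hl, h1]; rfl

lemma finite_nat (n : ℕ) : ∀ k, (G.e k).1 = natN n → {w | G.E w (G.cl k)}.Finite := by
  induction n with
  | zero =>
    intro k hk
    convert Set.finite_empty
    refine Set.eq_empty_of_forall_notMem fun w hw => ?_
    obtain ⟨i, _⟩ := h.elem_of_E' hk hw
    exact i.elim
  | succ n ih =>
    intro k hk
    obtain ⟨l, hl⟩ := h.exists_nat n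
    refine ((ih l hl).insert (G.cl l)).subset fun w hw => ?_
    have hk' : (G.e k).1 = succN (G.e l).1 := by rw [hk, hl]; rfl
    rcases (h.E_succ hk' w).mp hw with h1 | h1
    · exact Or.inr h1
    · exact Or.inl h1

/-- Natural numbers of the model are standard. -/
lemma finite_of_isNat {n : G.M} (hn : IsNat G.E n) : {w | G.E w n}.Finite := by
  obtain ⟨j, hj⟩ := h.omega.const
  have hj' : (G.e j).1 = omegaN := by rw [hj]; rfl
  obtain ⟨a, k, m, h1, _, rfl⟩ := h.elem_of_E' hj' (hn _ (h.omega_inductive hj'))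
  exact h.finite_nat a k h1

theorem isModelZF : IsModelZF G.E where
  extensionality := h.ext
  foundation := by
    rintro x ⟨y, hy⟩
    obtain ⟨m, hm, hmin⟩ := h.wf.has_min {z | G.E z x} ⟨y, hy⟩
    exact ⟨m, hm, fun z hz hzx => hmin z hzx hz⟩
  pairing := by
    intro x y
    obtain ⟨i, rfl⟩ := G.cl_surj x
    obtain ⟨j, rfl⟩ := G.cl_surj y
    obtain ⟨k, hk⟩ := h.exists_upair i j
    exact ⟨G.cl k, h.E_upair hk⟩
  union := by
    intro x
    obtain ⟨j, rfl⟩ := G.cl_surj x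
    obtain ⟨k, hk⟩ := Gen.Meets.op h.union (fun _ => j)
    refine ⟨G.cl k, fun z => ?_⟩
    obtain ⟨i, rfl⟩ := G.cl_surj z
    have hk' : (G.e k).1 = unionN (G.e j).1 := by rw [hk]; rfl
    rw [G.E_cl, hk']
    constructor
    · rintro ⟨n, hn⟩
      exact h.exists_mid (fmem_unionN.mp hn)
    · rintro ⟨y, h1, h2⟩
      obtain ⟨l, rfl⟩ := G.cl_surj y
      obtain ⟨a, ha⟩ := G.E_cl.mp h1
      obtain ⟨b, hb⟩ := G.E_cl.mp h2
      exact ⟨max a b, fmem_unionN.mpr (Dn.of_all fun q hq =>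
        ⟨G.e l, ha.mono (hq.trans (G.le_left _ _)), hb.mono (hq.trans (G.le_right _ _))⟩)⟩
  powerset := by
    intro x
    obtain ⟨j, rfl⟩ := G.cl_surj x
    obtain ⟨k, hk⟩ := Gen.Meets.op h.pow (fun _ => j)
    refine ⟨G.cl k, fun z => ?_⟩
    obtain ⟨i, rfl⟩ := G.cl_surj z
    have hk' : (G.e k).1 = powN (G.e j) := by rw [hk]; rfl
    rw [G.E_cl, hk', h.sub_iff]
    simp only [fmem_powN]
  infinity := by
    obtain ⟨j, hj⟩ := h.omega.const
    exact ⟨G.cl j, h.omega_inductive (by rw [hj]; rfl)⟩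
  separation := by
    intro n φ ps x
    obtain ⟨is, rfl⟩ := G.tuple_surj ps
    obtain ⟨j, rfl⟩ := G.cl_surj x
    obtain ⟨k, hk⟩ := Gen.Meets.op (h.sep φ) (Sum.elim is fun _ => j)
    refine ⟨G.cl k, fun z => ?_⟩
    obtain ⟨i, rfl⟩ := G.cl_surj z
    have hk' : (G.e k).1 = sepN (G.e j) (formulaPred φ (G.e ∘ is)) := by rw [hk]; rfl
    rw [G.E_cl, G.E_cl, hk', h.truth1]
    simp only [fmem_sepN]
    constructor
    · rintro ⟨m, h1, h2⟩
      exact ⟨⟨m, h1⟩, m, h2⟩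
    · rintro ⟨⟨a, ha⟩, b, hb⟩
      exact ⟨max a b, ha.mono (G.le_left _ _), hb.mono (G.le_right _ _)⟩
  replacement := by
    intro n φ ps x hx
    obtain ⟨is, rfl⟩ := G.tuple_surj ps
    obtain ⟨j, rfl⟩ := G.cl_surj x
    obtain ⟨k, hk⟩ := Gen.Meets.op (h.repl φ) (Sum.elim is fun _ => j)
    refine ⟨G.cl k, fun z => ?_⟩
    obtain ⟨i, rfl⟩ := G.cl_surj z
    have hk' : (G.e k).1 = sepN (Pool.Agent.Lib.MP_e3c3cf_lc.coll (G.e j)
        fun u y p => frc φ (Fin.snoc (Fin.snoc (G.e ∘ is) u) y) p)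
        (imagePred φ (G.e ∘ is) (G.e j)) := by rw [hk]; rfl
    rw [G.E_cl, hk']
    simp only [fmem_sepN]
    constructor
    · rintro ⟨m, _, h2⟩
      obtain ⟨a, l, h3, h4⟩ := (h.img φ).of_dn (Sum.elim is fun b => cond b i j) (m := m) h2
      exact ⟨G.cl l, G.E_cl.mpr ⟨a, h3⟩, (h.truth2 φ is l i).mpr ⟨a, h4⟩⟩
    · rintro ⟨u, hu, hφ⟩
      obtain ⟨l, rfl⟩ := G.cl_surj u
      obtain ⟨a, ha⟩ := G.E_cl.mp hu
      obtain ⟨b, hb⟩ := (h.truth2 φ is l i).mp hφ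
      have h1 := coll_spec (x := G.e j) (u := G.e l) (y := G.e i)
        (Φ := fun u y p => frc φ (Fin.snoc (Fin.snoc (G.e ∘ is) u) y) p) (p := G.g (max a b))
        (fun h hq => h.mono hq) (fun h e => h.congr_snoc2 e)
        (ha.mono (G.le_left _ _)) (hb.mono (G.le_right _ _))
      obtain ⟨c, l', h3, h4⟩ := (h.coll φ).of_dn (Sum.elim is fun b => cond b l j) h1
      have h5 : G.cl l' = G.cl i :=
        (hx _ hu).unique ((h.truth2 φ is l l').mpr ⟨c, h4⟩) hφ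
      obtain ⟨d, hd⟩ := G.cl_eq.mp h5
      refine ⟨max (max a b) (max c d), ?_, ?_⟩
      · exact (fmem.mono h3 ((G.le_right _ _).trans (G.le_left _ _))).congr_left
          (hd.mono ((G.le_right _ _).trans (G.le_right _ _)))
      · exact Dn.of_all fun q hq => ⟨G.e l,
          ha.mono (hq.trans ((G.le_left _ _).trans (G.le_left _ _))),
          hb.mono (hq.trans ((G.le_left _ _).trans (G.le_right _ _)))⟩

end Gen.IsGeneric

end Pool.Agent.Lib.MP_e3c3cf_lc
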