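import Pool.Agent.Lib.MP_e3c3cf_lc.Defs

/-!
Names for forcing with a preorder `P`, the forcing relations for equality and membership,
and the action of a group of automorphisms.
-/

namespace Pool.Agent.Lib.MP_e3c3cf_lc

/-- `P`-names. -/
inductive Name (P : Type) [Preorder P] : Type 1
  | mk (ι : Type) (f : ι → Name P) (v : ι → LowerSet P) : Name P

variable {P : Type} [Preorder P]

/-- `Φ` holds densely below `p`. -/
def Dn (Φ : P → Prop) (p : P) : Prop := ∀ q ≤ p, ∃ r ≤ q, Φ r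

lemma Dn.mono {Φ : P → Prop} {p q : P} (h : Dn Φ p) (hq : q ≤ p) : Dn Φ q :=
  fun r hr => h r (hr.trans hq)

lemma Dn.of_dn {Φ : P → Prop} {p : P} (h : Dn (Dn Φ) p) : Dn Φ p := by
  intro q hq
  obtain ⟨r, hr, h1⟩ := h q hq
  obtain ⟨s, hs, h2⟩ := h1 r le_rfl
  exact ⟨s, hs.trans hr, h2⟩

lemma Dn.imp {Φ Ψ : P → Prop} {p : P} (h : Dn Φ p) (hi : ∀ r ≤ p, Φ r → Ψ r) : Dn Ψ p := by
  intro q hq
  obtain ⟨r, hr, h1⟩ := h q hq
  exact ⟨r, hr, hi r (hr.trans hq) h1⟩

lemma Dn.of_all {Φ : P → Prop} {p : P} (h : ∀ q ≤ p, Φ q) : Dn Φ p :=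
  fun q hq => ⟨q, le_rfl, h q hq⟩

namespace Name

def ι : Name P → Type | mk ι _ _ => ι
def f : (x : Name P) → x.ι → Name P | mk _ f _ => f
def v : (x : Name P) → x.ι → LowerSet P | mk _ _ v => v

@[simp] lemma ι_mk (ι : Type) (f : ι → Name P) (v : ι → LowerSet P) : (mk ι f v).ι = ι := rfl
@[simp] lemma f_mk (ι : Type) (f : ι → Name P) (v : ι → LowerSet P) (i : ι) :
    (mk ι f v).f i = f i := rfl
@[simp] lemma v_mk (ι : Type) (f : ι → Name P) (v : ι → LowerSet P) (i : ι) :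
    (mk ι f v).v i = v i := rfl

lemma eta (x : Name P) : mk x.ι x.f x.v = x := by cases x; rfl

/-- `p` forces `x = y`. -/
def feq : Name P → Name P → P → Prop
  | mk _ f v, mk _ g w, p =>
    (∀ i, ∀ q ≤ p, q ∈ v i → ∃ r ≤ q, ∃ j, r ∈ w j ∧ feq (f i) (g j) r) ∧
    (∀ j, ∀ q ≤ p, q ∈ w j → ∃ r ≤ q, ∃ i, r ∈ v i ∧ feq (f i) (g j) r)

/-- `p` forces `z ∈ x`. -/
def fmem (z x : Name P) (p : P) : Prop :=
  Dn (fun r => ∃ j, r ∈ x.v j ∧ feq z (x.f j) r) p

lemma feq_def (x y : Name P) (p : P) : feq x y p ↔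
    (∀ i, ∀ q ≤ p, q ∈ x.v i → ∃ r ≤ q, ∃ j, r ∈ y.v j ∧ feq (x.f i) (y.f j) r) ∧
    (∀ j, ∀ q ≤ p, q ∈ y.v j → ∃ r ≤ q, ∃ i, r ∈ x.v i ∧ feq (x.f i) (y.f j) r) := by
  cases x; cases y; rfl

lemma feq.mono {x y : Name P} {p q : P} (h : feq x y p) (hq : q ≤ p) : feq x y q := by
  rw [feq_def] at h ⊢
  exact ⟨fun i r hr => h.1 i r (hr.trans hq), fun j r hr => h.2 j r (hr.trans hq)⟩

lemma feq.refl (x : Name P) (p : P) : feq x x p := by
  induction x generalizing p with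
  | mk ι f v ih =>
    exact ⟨fun i q _ hq => ⟨q, le_rfl, i, hq, ih i q⟩, fun i q _ hq => ⟨q, le_rfl, i, hq, ih i q⟩⟩

lemma feq.of_eq {x y : Name P} (h : x = y) (p : P) : feq x y p := h ▸ feq.refl x p

lemma feq.symm {x y : Name P} {p : P} (h : feq x y p) : feq y x p := by
  induction x generalizing y p with
  | mk ι f v ih =>
    rw [feq_def] at h ⊢
    constructor
    · intro j q hq hj
      obtain ⟨r, hr, i, hi, e⟩ := h.2 j q hq hj
      exact ⟨r, hr, i, hi, ih i e⟩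
    · intro i q hq hi
      obtain ⟨r, hr, j, hj, e⟩ := h.1 i q hq hi
      exact ⟨r, hr, j, hj, ih i e⟩

lemma feq.trans {x y z : Name P} {p : P} (h1 : feq x y p) (h2 : feq y z p) : feq x z p := by
  induction x generalizing y z p with
  | mk ι f v ih =>
    rw [feq_def] at h1 h2 ⊢
    constructor
    · intro i q hq hi
      obtain ⟨r, hr, j, hj, e⟩ := h1.1 i q hq hi
      obtain ⟨s, hs, k, hk, e'⟩ := h2.1 j r (hr.trans hq) hj
      exact ⟨s, hs.trans hr, k, hk, ih i (e.mono hs) e'⟩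
    · intro k q hq hk
      obtain ⟨r, hr, j, hj, e⟩ := h2.2 k q hq hk
      obtain ⟨s, hs, i, hi, e'⟩ := h1.2 j r (hr.trans hq) hj
      exact ⟨s, hs.trans hr, i, hi, ih i e' (e.mono hs)⟩

lemma feq.reg {x y : Name P} {p : P} (h : Dn (feq x y) p) : feq x y p := by
  rw [feq_def]
  constructor
  · intro i q hq hi
    obtain ⟨r, hr, e⟩ := h q hq
    obtain ⟨s, hs, h'⟩ := ((feq_def _ _ _).mp e).1 i r le_rfl ((x.v i).lower hr hi)
    exact ⟨s, hs.trans hr, h'⟩
  · intro j q hq hj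
    obtain ⟨r, hr, e⟩ := h q hq
    obtain ⟨s, hs, h'⟩ := ((feq_def _ _ _).mp e).2 j r le_rfl ((y.v j).lower hr hj)
    exact ⟨s, hs.trans hr, h'⟩

lemma fmem.mono {z x : Name P} {p q : P} (h : fmem z x p) (hq : q ≤ p) : fmem z x q :=
  Dn.mono h hq

lemma fmem.reg {z x : Name P} {p : P} (h : Dn (fmem z x) p) : fmem z x p := Dn.of_dn h

lemma fmem.intro {z x : Name P} {p : P} (j : x.ι) (hj : p ∈ x.v j) (e : feq z (x.f j) p) :
    fmem z x p :=
  fun q hq => ⟨q, le_rfl, j, (x.v j).lower hq hj, e.mono hq⟩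

lemma fmem.self {x : Name P} {p : P} (j : x.ι) (hj : p ∈ x.v j) : fmem (x.f j) x p :=
  fmem.intro j hj (feq.refl _ _)

lemma fmem.congr_left {z z' x : Name P} {p : P} (h : fmem z x p) (e : feq z z' p) :
    fmem z' x p :=
  Dn.imp h fun _ hr ⟨j, hj, e'⟩ => ⟨j, hj, (e.mono hr).symm.trans e'⟩

lemma fmem.congr_right {z x x' : Name P} {p : P} (h : fmem z x p) (e : feq x x' p) :
    fmem z x' p := by
  intro q hq
  obtain ⟨r, hr, j, hj, e'⟩ := h q hq
  obtain ⟨s, hs, k, hk, e''⟩ := ((feq_def _ _ _).mp e).1 j r (hr.trans hq) hj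
  exact ⟨s, hs.trans hr, k, hk, (e'.mono hs).trans e''⟩

lemma feq_of_sub {x y : Name P} {p : P}
    (h1 : ∀ i, ∀ q ≤ p, q ∈ x.v i → fmem (x.f i) y q)
    (h2 : ∀ j, ∀ q ≤ p, q ∈ y.v j → fmem (y.f j) x q) : feq x y p := by
  rw [feq_def]
  constructor
  · intro i q hq hi
    exact h1 i q hq hi q le_rfl
  · intro j q hq hj
    obtain ⟨r, hr, i, hi, e⟩ := h2 j q hq hj q le_rfl
    exact ⟨r, hr, i, hi, e.symm⟩

lemma not_fmem_self (x : Name P) (p : P) : ¬ fmem x x p := by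
  induction x generalizing p with
  | mk ι f v ih =>
    intro h
    obtain ⟨r, hr, i, hi, e⟩ := h p le_rfl
    exact ih i r (((h.mono hr).congr_left e).congr_right e)

end Name

/-- A group acting on `P` by order automorphisms, with a normal filter. -/
class SymSys (Γ P : Type) [Group Γ] [Preorder P] [MulAction Γ P] where
  smul_mono : ∀ (g : Γ) {p q : P}, p ≤ q → g • p ≤ g • q
  F : Filter Γ
  normal : ∀ S ∈ F, ∀ h : Γ, {g | h⁻¹ * g * h ∈ S} ∈ F

variable {Γ : Type} [Group Γ] [MulAction Γ P] [S : SymSys Γ P]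

lemma smul_le_iff (g : Γ) {p q : P} : g • p ≤ q ↔ p ≤ g⁻¹ • q :=
  ⟨fun h => by simpa using S.smul_mono g⁻¹ h, fun h => by simpa using S.smul_mono g h⟩

lemma le_smul_iff (g : Γ) {p q : P} : p ≤ g • q ↔ g⁻¹ • p ≤ q :=
  ⟨fun h => by simpa using S.smul_mono g⁻¹ h, fun h => by simpa using S.smul_mono g h⟩

/-- The image of a lower set. -/
def actL (g : Γ) (U : LowerSet P) : LowerSet P :=
  ⟨{p | g⁻¹ • p ∈ U}, fun _ _ h hp => U.lower (S.smul_mono g⁻¹ h) hp⟩

@[simp] lemma mem_actL (g : Γ) (U : LowerSet P) (p : P) : p ∈ actL g U ↔ g⁻¹ • p ∈ U := Iff.rfl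

lemma actL_top (g : Γ) : actL g (⊤ : LowerSet P) = ⊤ := by
  ext p; simp [actL]

namespace Name

/-- The action of the group on names. -/
def act (g : Γ) : Name P → Name P
  | mk ι f v => mk ι (fun i => act g (f i)) (fun i => actL g (v i))

lemma act_one (x : Name P) : act (1 : Γ) x = x := by
  induction x with
  | mk ι f v ih =>
    simp only [act, ih]
    congr 1
    funext i; ext p; simp

lemma act_mul (g h : Γ) (x : Name P) : act (g * h) x = act g (act h x) := by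
  induction x with
  | mk ι f v ih =>
    simp only [act, ih]
    congr 1
    funext i; ext p; simp [mul_smul]

instance : MulAction Γ (Name P) where
  smul := act
  one_smul := act_one
  mul_smul := act_mul

lemma smul_mk (g : Γ) (ι : Type) (f : ι → Name P) (v : ι → LowerSet P) :
    g • mk ι f v = mk ι (fun i => g • f i) (fun i => actL g (v i)) := rfl

lemma feq.smul (g : Γ) {x y : Name P} {p : P} (h : feq x y p) : feq (g • x) (g • y) (g • p) := by
  induction x generalizing y p with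
  | mk ι f v ih =>
    cases y with
    | mk κ f' w =>
      constructor
      · intro i q hq hi
        obtain ⟨r, hr, j, hj, e⟩ := h.1 i (g⁻¹ • q) ((le_smul_iff g).mp hq) hi
        exact ⟨g • r, (smul_le_iff g).mpr hr, j, by simpa using hj, ih i e⟩
      · intro j q hq hj
        obtain ⟨r, hr, i, hi, e⟩ := h.2 j (g⁻¹ • q) ((le_smul_iff g).mp hq) hj
        exact ⟨g • r, (smul_le_iff g).mpr hr, i, by simpa using hi, ih i e⟩

lemma fmem.smul (g : Γ) {z x : Name P} {p : P} (h : fmem z x p) :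
    fmem (g • z) (g • x) (g • p) := by
  cases x with
  | mk ι f v =>
    intro q hq
    obtain ⟨r, hr, j, hj, e⟩ := h (g⁻¹ • q) ((le_smul_iff g).mp hq)
    refine ⟨g • r, (smul_le_iff g).mpr hr, j, ?_, e.smul g⟩
    show g⁻¹ • g • r ∈ v j
    rw [inv_smul_smul]
    exact hj

lemma fmem_smul_iff (g : Γ) {z x : Name P} {p : P} :
    fmem z (g • x) p ↔ fmem (g⁻¹ • z) x (g⁻¹ • p) :=
  ⟨fun h => by simpa using h.smul g⁻¹, fun h => by simpa using h.smul g⟩

variable (Γ)

/-- The symmetry group of a name. -/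
def sym (x : Name P) : Set Γ := {g | ∀ p, feq (g • x) x p}

/-- Hereditarily symmetric names. -/
def HS : Name P → Prop
  | mk ι f v => sym Γ (mk ι f v) ∈ S.F ∧ ∀ i, HS (f i)

variable {Γ}

lemma HS_iff (x : Name P) : HS Γ x ↔ sym Γ x ∈ S.F ∧ ∀ i, HS Γ (x.f i) := by
  cases x; rfl

lemma HS.sym_mem {x : Name P} (h : HS Γ x) : sym Γ x ∈ S.F := ((HS_iff x).mp h).1

lemma HS.elem {x : Name P} (h : HS Γ x) (i : x.ι) : HS Γ (x.f i) := ((HS_iff x).mp h).2 i

lemma inv_mem_sym {x : Name P} {g : Γ} (h : g ∈ sym Γ x) : g⁻¹ ∈ sym Γ x := by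
  intro p
  simpa using ((h (g • p)).smul g⁻¹).symm

lemma HS.smul (g : Γ) {x : Name P} (h : HS Γ x) : HS Γ (g • x) := by
  induction x with
  | mk ι f v ih =>
    refine ⟨?_, fun i => ih i (h.2 i)⟩
    apply Filter.mem_of_superset (S.normal _ h.1 g)
    intro k hk p
    have := (hk (g⁻¹ • p)).smul g
    show feq (k • g • mk ι f v) (g • mk ι f v) p
    simpa [smul_smul, mul_assoc] using this

end Name

/-- The type of hereditarily symmetric names. -/
def HSName (Γ P : Type) [Group Γ] [Preorder P] [MulAction Γ P] [SymSys Γ P] : Type 1 :=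
  {x : Name P // Name.HS Γ x}

instance : MulAction Γ (HSName Γ P) where
  smul g x := ⟨g • x.1, x.2.smul g⟩
  one_smul x := Subtype.ext (one_smul _ x.1)
  mul_smul g h x := Subtype.ext (mul_smul g h x.1)

@[simp] lemma HSName.smul_val (g : Γ) (x : HSName Γ P) : (g • x).1 = g • x.1 := rfl

/-- An element of a hereditarily symmetric name. -/
def HSName.elem (x : HSName Γ P) (i : x.1.ι) : HSName Γ P := ⟨x.1.f i, x.2.elem i⟩

@[simp] lemma HSName.elem_val (x : HSName Γ P) (i : x.1.ι) : (x.elem i).1 = x.1.f i := rfl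

open Name in
/-- Extensionality over hereditarily symmetric names. -/
lemma feq_of_forall_HS {x y : Name P} {p : P} (hx : ∀ i, HS Γ (x.f i)) (hy : ∀ i, HS Γ (y.f i))
    (h : ∀ z : HSName Γ P, ∀ q ≤ p, fmem z.1 x q ↔ fmem z.1 y q) : feq x y p :=
  feq_of_sub (fun i q hq hi => (h ⟨_, hx i⟩ q hq).mp (fmem.self i hi))
    (fun j q hq hj => (h ⟨_, hy j⟩ q hq).mpr (fmem.self j hj))

open Name in
/-- A name with hereditarily symmetric elements whose extension is invariant is symmetric. -/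
lemma mem_sym_of_ext {x : Name P} (hx : ∀ i, HS Γ (x.f i)) {g : Γ}
    (h : ∀ z : HSName Γ P, ∀ p, fmem z.1 x p → fmem (g • z.1) x (g • p))
    (h' : ∀ z : HSName Γ P, ∀ p, fmem z.1 x p → fmem (g⁻¹ • z.1) x (g⁻¹ • p)) :
    g ∈ sym Γ x := by
  intro p
  apply feq_of_forall_HS (Γ := Γ) _ hx
  · intro z q _
    rw [fmem_smul_iff]
    constructor
    · intro h1
      simpa using h (g⁻¹ • z) _ h1
    · exact h' z q
  · cases x with
    | mk ι f v => exact fun i => (hx i).smul g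

end Pool.Agent.Lib.MP_e3c3cf_lc
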