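import Pool.Agent.Lib.MP_e3c3cf_lc.Formula

/-!
Operations on hereditarily symmetric names: pair, union, separation, power set, collection,
natural numbers.
-/

namespace Pool.Agent.Lib.MP_e3c3cf_lc

open Name

variable {P : Type} [Preorder P] {Γ : Type} [Group Γ] [MulAction Γ P] [S : SymSys Γ P]

lemma HS_of_ext {x : Name P} (hx : ∀ i, HS Γ (x.f i)) (T : Set Γ) (hT : T ∈ S.F)
    (hinv : ∀ g ∈ T, g⁻¹ ∈ T)
    (h : ∀ g ∈ T, ∀ z : HSName Γ P, ∀ p, fmem z.1 x p → fmem (g • z.1) x (g • p)) : HS Γ x := by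
  rw [HS_iff]
  refine ⟨Filter.mem_of_superset hT fun g hg => ?_, hx⟩
  exact mem_sym_of_ext hx (h g hg) (h g⁻¹ (hinv g hg))

lemma fmem_smul_of_sym {z x : Name P} {p : P} {g : Γ} (hg : g ∈ sym Γ x) (h : fmem z x p) :
    fmem (g • z) x (g • p) := (h.smul g).congr_right (hg _)

lemma feq_smul_of_sym {z x : Name P} {p : P} {g : Γ} (hg : g ∈ sym Γ x) (h : feq z x p) :
    feq (g • z) x (g • p) := (h.smul g).trans (hg _)

lemma Dn.smul {Φ Ψ : P → Prop} {p : P} (g : Γ) (h : Dn Φ p) (hi : ∀ r, Φ r → Ψ (g • r)) :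
    Dn Ψ (g • p) := by
  intro q hq
  obtain ⟨r, hr, h1⟩ := h (g⁻¹ • q) ((le_smul_iff g).mp hq)
  exact ⟨g • r, (smul_le_iff g).mpr hr, hi r h1⟩

/-! ### Pairs -/

def upairN (x y : Name P) : Name P := .mk Bool (fun b => cond b x y) (fun _ => ⊤)

lemma fmem_upairN {z x y : Name P} {p : P} :
    fmem z (upairN x y) p ↔ Dn (fun r => feq z x r ∨ feq z y r) p := by
  constructor
  · intro h
    refine Dn.imp h ?_
    rintro r _ ⟨b, _, e⟩
    cases b
    · exact Or.inr e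
    · exact Or.inl e
  · intro h
    refine Dn.imp h ?_
    rintro r _ (e | e)
    · exact ⟨true, trivial, e⟩
    · exact ⟨false, trivial, e⟩

lemma smul_upairN (g : Γ) (x y : Name P) : g • upairN x y = upairN (g • x) (g • y) := by
  simp only [upairN, smul_mk, actL_top]
  congr 1
  funext b; cases b <;> rfl

lemma HS_upairN {x y : Name P} (hx : HS Γ x) (hy : HS Γ y) : HS Γ (upairN x y) := by
  apply HS_of_ext _ (sym Γ x ∩ sym Γ y) (Filter.inter_mem hx.sym_mem hy.sym_mem)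
    (fun g hg => ⟨inv_mem_sym hg.1, inv_mem_sym hg.2⟩)
  · intro g hg z p h
    rw [fmem_upairN] at h ⊢
    refine h.smul g ?_
    rintro r (e | e)
    · exact Or.inl (feq_smul_of_sym hg.1 e)
    · exact Or.inr (feq_smul_of_sym hg.2 e)
  · intro b; cases b
    · exact hy
    · exact hx

def upair (x y : HSName Γ P) : HSName Γ P := ⟨upairN x.1 y.1, HS_upairN x.2 y.2⟩

def opairN (x y : Name P) : Name P := upairN (upairN x x) (upairN x y)

lemma smul_opairN (g : Γ) (x y : Name P) : g • opairN x y = opairN (g • x) (g • y) := by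
  simp only [opairN, smul_upairN]

lemma HS_opairN {x y : Name P} (hx : HS Γ x) (hy : HS Γ y) : HS Γ (opairN x y) :=
  HS_upairN (HS_upairN hx hx) (HS_upairN hx hy)

/-! ### Union -/

def unionN (x : Name P) : Name P :=
  .mk (Σ i : x.ι, (x.f i).ι) (fun k => (x.f k.1).f k.2) (fun k => x.v k.1 ⊓ (x.f k.1).v k.2)

lemma fmem_unionN {z : Name P} {x : HSName Γ P} {p : P} :
    fmem z (unionN x.1) p ↔ Dn (fun r => ∃ y : HSName Γ P, fmem y.1 x.1 r ∧ fmem z y.1 r) p := by
  constructor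
  · intro h
    refine Dn.imp h ?_
    rintro r _ ⟨⟨i, j⟩, hk, e⟩
    exact ⟨x.elem i, fmem.self i hk.1, fmem.intro j hk.2 e⟩
  · intro h
    apply fmem.reg
    intro q hq
    obtain ⟨r, hr, y, h1, h2⟩ := h q hq
    obtain ⟨s, hs, i, hi, e⟩ := h1 r le_rfl
    obtain ⟨t, ht, j, hj, e'⟩ := ((h2.mono hs).congr_right e) s le_rfl
    exact ⟨t, ht.trans (hs.trans hr),
      fmem.intro (x := unionN x.1) ⟨i, j⟩ ⟨(x.1.v i).lower ht hi, hj⟩ e'⟩

lemma HS_unionN (x : HSName Γ P) : HS Γ (unionN x.1) := by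
  apply HS_of_ext _ (sym Γ x.1) x.2.sym_mem (fun g hg => inv_mem_sym hg)
  · intro g hg z p h
    rw [fmem_unionN] at h ⊢
    refine h.smul g ?_
    rintro r ⟨y, h1, h2⟩
    exact ⟨g • y, fmem_smul_of_sym hg h1, h2.smul g⟩
  · intro k
    exact (x.2.elem k.1).elem k.2

def union (x : HSName Γ P) : HSName Γ P := ⟨unionN x.1, HS_unionN x⟩

/-! ### Separation -/

/-- A forcing predicate on hereditarily symmetric names that is symmetric. -/
structure SPred (Γ P : Type) [Group Γ] [Preorder P] [MulAction Γ P] [S : SymSys Γ P] where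
  Φ : HSName Γ P → P → Prop
  mono : ∀ {z p q}, Φ z p → q ≤ p → Φ z q
  reg : ∀ {z p}, Dn (Φ z) p → Φ z p
  congr : ∀ {z z' p}, Φ z p → feq z.1 z'.1 p → Φ z' p
  T : Set Γ
  T_mem : T ∈ S.F
  T_inv : ∀ g ∈ T, g⁻¹ ∈ T
  smul : ∀ g ∈ T, ∀ {z p}, Φ z p → Φ (g • z) (g • p)

def sepV (x : HSName Γ P) (Φ : SPred Γ P) (i : x.1.ι) : LowerSet P :=
  ⟨{p | p ∈ x.1.v i ∧ Φ.Φ (x.elem i) p},
    fun _ _ h hp => ⟨(x.1.v i).lower h hp.1, Φ.mono hp.2 h⟩⟩

def sepN (x : HSName Γ P) (Φ : SPred Γ P) : Name P := .mk x.1.ι x.1.f (sepV x Φ)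

lemma fmem_sepN {z x : HSName Γ P} {Φ : SPred Γ P} {p : P} :
    fmem z.1 (sepN x Φ) p ↔ fmem z.1 x.1 p ∧ Φ.Φ z p := by
  constructor
  · intro h
    constructor
    · refine Dn.imp h ?_
      rintro r _ ⟨i, hi, e⟩
      exact ⟨i, hi.1, e⟩
    · apply Φ.reg
      refine Dn.imp h ?_
      rintro r _ ⟨i, hi, e⟩
      exact Φ.congr hi.2 e.symm
  · rintro ⟨h1, h2⟩
    refine Dn.imp h1 ?_
    rintro r hr ⟨i, hi, e⟩
    exact ⟨i, ⟨hi, Φ.congr (z' := x.elem i) (Φ.mono h2 hr) e⟩, e⟩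

lemma HS_sepN (x : HSName Γ P) (Φ : SPred Γ P) : HS Γ (sepN x Φ) := by
  apply HS_of_ext _ (sym Γ x.1 ∩ Φ.T) (Filter.inter_mem x.2.sym_mem Φ.T_mem)
    (fun g hg => ⟨inv_mem_sym hg.1, Φ.T_inv g hg.2⟩)
  · intro g hg z p h
    rw [fmem_sepN] at h
    exact (fmem_sepN (z := g • z)).mpr ⟨fmem_smul_of_sym hg.1 h.1, Φ.smul g hg.2 h.2⟩
  · exact x.2.elem

def sep (x : HSName Γ P) (Φ : SPred Γ P) : HSName Γ P := ⟨sepN x Φ, HS_sepN x Φ⟩

/-- The predicate given by a formula with parameters. -/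
def formulaPred {n : ℕ} (φ : setLang.BoundedFormula Empty (n + 1)) (ps : Fin n → HSName Γ P) :
    SPred Γ P where
  Φ z p := frc φ (Fin.snoc ps z) p
  mono h hq := h.mono hq
  reg h := frc.reg h
  congr h e := h.congr_snoc e
  T := {g : Γ | ∀ i, g ∈ sym Γ (ps i).1}
  T_mem := tuple_sym_mem ps
  T_inv _ hg i := inv_mem_sym (hg i)
  smul _ hg _ _ h := h.smul_snoc hg

/-- The predicate of being an element of `y`. -/
def memPred (y : HSName Γ P) : SPred Γ P where
  Φ z p := fmem z.1 y.1 p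
  mono h hq := h.mono hq
  reg h := fmem.reg h
  congr h e := h.congr_left e
  T := sym Γ y.1
  T_mem := y.2.sym_mem
  T_inv _ hg := inv_mem_sym hg
  smul _ hg _ _ h := fmem_smul_of_sym hg h

/-! ### Power set -/

variable (Γ) in
/-- `p` forces `z ⊆ x`. -/
def fsub (z x : Name P) (p : P) : Prop :=
  ∀ w : HSName Γ P, ∀ q ≤ p, fmem w.1 z q → fmem w.1 x q

lemma fsub.mono {z x : Name P} {p q : P} (h : fsub Γ z x p) (hq : q ≤ p) : fsub Γ z x q :=
  fun w r hr => h w r (hr.trans hq)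

lemma fsub.reg {z x : Name P} {p : P} (h : Dn (fsub Γ z x) p) : fsub Γ z x p := by
  intro w q hq hw
  apply fmem.reg
  intro r hr
  obtain ⟨s, hs, h1⟩ := h r (hr.trans hq)
  exact ⟨s, hs, h1 w s le_rfl (hw.mono (hs.trans hr))⟩

lemma feq_of_fsub {x y : HSName Γ P} {p : P} (h1 : fsub Γ x.1 y.1 p) (h2 : fsub Γ y.1 x.1 p) :
    feq x.1 y.1 p :=
  feq_of_forall_HS x.2.elem y.2.elem fun z q hq => ⟨h1 z q hq, h2 z q hq⟩

def powN (x : HSName Γ P) : Name P :=
  .mk {w : x.1.ι → LowerSet P // HS Γ (.mk x.1.ι x.1.f w)} (fun w => .mk x.1.ι x.1.f w.1)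
    (fun w => ⟨{p | fsub Γ (.mk x.1.ι x.1.f w.1) x.1 p}, fun _ _ h hp => fsub.mono hp h⟩)

lemma fmem_powN {z x : HSName Γ P} {p : P} : fmem z.1 (powN x) p ↔ fsub Γ z.1 x.1 p := by
  constructor
  · intro h
    apply fsub.reg
    refine Dn.imp h ?_
    rintro r _ ⟨w, hw, e⟩ u q hq hu
    exact hw u q hq (hu.congr_right (e.mono hq))
  · intro h
    refine fmem.intro (x := powN x) ⟨sepV x (memPred z), HS_sepN x (memPred z)⟩ ?_ ?_
    · intro u q _ hu
      exact ((fmem_sepN (Φ := memPred z)).mp hu).1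
    · apply feq_of_fsub (y := sep x (memPred z))
      · intro u q hq hu
        exact fmem_sepN.mpr ⟨h u q hq hu, hu⟩
      · intro u q _ hu
        exact (fmem_sepN.mp hu).2

lemma HS_powN (x : HSName Γ P) : HS Γ (powN x) := by
  apply HS_of_ext _ (sym Γ x.1) x.2.sym_mem (fun g hg => inv_mem_sym hg)
  · intro g hg z p h
    rw [fmem_powN] at h
    refine (fmem_powN (z := g • z)).mpr ?_
    intro u q hq hu
    have h1 := h (g⁻¹ • u) (g⁻¹ • q) ((le_smul_iff g).mp hq) ((fmem_smul_iff g).mp hu)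
    simpa using fmem_smul_of_sym hg h1
  · exact fun w => w.2

def pow (x : HSName Γ P) : HSName Γ P := ⟨powN x, HS_powN x⟩

/-! ### Natural numbers -/

def emptyN : Name P := .mk Empty Empty.elim Empty.elim

def succN (x : Name P) : Name P :=
  .mk (Option x.ι) (fun o => o.elim x x.f) (fun o => o.elim ⊤ x.v)

def natN : ℕ → Name P
  | 0 => emptyN
  | n + 1 => succN (natN n)

lemma not_fmem_emptyN (z : Name P) (p : P) : ¬ fmem z emptyN p := by
  intro h
  obtain ⟨_, _, j, _⟩ := h p le_rfl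
  exact Empty.elim j

lemma fmem_succN {z x : Name P} {p : P} :
    fmem z (succN x) p ↔ Dn (fun r => fmem z x r ∨ feq z x r) p := by
  constructor
  · intro h
    refine Dn.imp h ?_
    rintro r _ ⟨o, ho, e⟩
    cases o with
    | none => exact Or.inr e
    | some i => exact Or.inl (fmem.intro i ho e)
  · intro h
    apply fmem.reg
    refine Dn.imp h ?_
    rintro r _ (e | e)
    · refine Dn.imp e ?_
      rintro s _ ⟨i, hi, e'⟩
      exact ⟨some i, hi, e'⟩
    · exact fmem.intro (x := succN x) none trivial e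

lemma smul_succN (g : Γ) (x : Name P) : g • succN x = succN (g • x) := by
  cases x with
  | mk ι f v =>
    simp only [succN, smul_mk]
    congr 1
    · funext o; cases o <;> rfl
    · funext o; cases o
      · exact actL_top g
      · rfl

lemma smul_natN (g : Γ) (n : ℕ) : g • (natN n : Name P) = natN n := by
  induction n with
  | zero =>
    simp only [natN, emptyN, smul_mk]
    congr 1 <;> funext e <;> exact e.elim
  | succ n ih => rw [natN, smul_succN, ih]

lemma sym_of_fixed {x : Name P} (h : ∀ g : Γ, g • x = x) : sym Γ x ∈ S.F :=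
  Filter.mem_of_superset Filter.univ_mem fun g _ p => feq.of_eq (h g) p

lemma HS_natN (n : ℕ) : HS Γ (natN n : Name P) := by
  induction n with
  | zero => exact (HS_iff _).mpr ⟨sym_of_fixed fun g => smul_natN g 0, fun e => Empty.elim e⟩
  | succ n ih =>
    refine (HS_iff _).mpr ⟨sym_of_fixed fun g => smul_natN g _, fun o => ?_⟩
    cases o with
    | none => exact ih
    | some i => exact ih.elem i

lemma fmem_natN {k n : ℕ} (h : k < n) (p : P) : fmem (natN k) (natN n) p := by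
  induction n with
  | zero => omega
  | succ n ih =>
    rw [natN, fmem_succN]
    apply Dn.of_all
    intro q _
    rcases Nat.lt_succ_iff_lt_or_eq.mp h with h | h
    · exact Or.inl ((ih h).mono ‹_›)
    · subst h; exact Or.inr (feq.refl _ _)

lemma natN_inj {n m : ℕ} {p : P} (h : feq (natN n) (natN m) p) : n = m := by
  rcases lt_trichotomy n m with h1 | h1 | h1
  · exact absurd ((fmem_natN h1 p).congr_right h.symm) (not_fmem_self _ _)
  · exact h1
  · exact absurd ((fmem_natN h1 p).congr_right h) (not_fmem_self _ _)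

def omegaN : Name P := .mk ℕ natN (fun _ => ⊤)

lemma HS_omegaN : HS Γ (omegaN : Name P) := by
  refine (HS_iff _).mpr ⟨sym_of_fixed fun g => ?_, HS_natN⟩
  simp only [omegaN, smul_mk, smul_natN, actL_top]

def natH (n : ℕ) : HSName Γ P := ⟨natN n, HS_natN n⟩

def omegaH : HSName Γ P := ⟨omegaN, HS_omegaN⟩

instance : Inhabited (HSName Γ P) := ⟨natH 0⟩

/-- Reindexing a name does not change it. -/
lemma feq_reindex {ι κ : Type} {f : ι → Name P} {v : ι → LowerSet P} {f' : κ → Name P}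
    {v' : κ → LowerSet P} (e : ι ≃ κ) (hf : ∀ i, f' (e i) = f i) (hv : ∀ i, v' (e i) = v i)
    (p : P) : feq (.mk ι f v) (.mk κ f' v') p := by
  constructor
  · intro i q _ hi
    exact ⟨q, le_rfl, e i, by rwa [hv], feq.of_eq (hf i).symm q⟩
  · intro j q _ hj
    obtain ⟨i, rfl⟩ := e.surjective j
    exact ⟨q, le_rfl, i, by rwa [hv] at hj, feq.of_eq (hf i).symm q⟩

/-! ### Collection and replacement -/

open Classical in
noncomputable def wit (Φ : HSName Γ P → Prop) : HSName Γ P :=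
  if h : ∃ y, Φ y then h.choose else default

lemma wit_spec {Φ : HSName Γ P → Prop} {y : HSName Γ P} (h : Φ y) : Φ (wit Φ) := by
  have h' : ∃ y, Φ y := ⟨y, h⟩
  simp only [wit, h', dif_pos]
  exact h'.choose_spec

noncomputable def collN (x : HSName Γ P) (Φ : HSName Γ P → HSName Γ P → P → Prop) : Name P :=
  .mk (x.1.ι × P × Γ) (fun k => k.2.2 • (wit fun y => Φ (x.elem k.1) y k.2.1).1) (fun _ => ⊤)

lemma HS_collN (x : HSName Γ P) (Φ : HSName Γ P → HSName Γ P → P → Prop) :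
    HS Γ (collN x Φ) := by
  refine (HS_iff _).mpr ⟨?_, fun k => HS.smul _ (wit _).2⟩
  refine Filter.mem_of_superset Filter.univ_mem fun g _ p => ?_
  rw [collN, smul_mk]
  refine feq_reindex (Equiv.prodCongr (Equiv.refl _) (Equiv.prodCongr (Equiv.refl _)
    (Equiv.mulLeft g))) ?_ ?_ p
  · rintro ⟨i, q, h⟩
    simp [mul_smul]
  · intro k
    exact (actL_top g).symm

noncomputable def coll (x : HSName Γ P) (Φ : HSName Γ P → HSName Γ P → P → Prop) :
    HSName Γ P := ⟨collN x Φ, HS_collN x Φ⟩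

lemma coll_spec {x u y : HSName Γ P} {Φ : HSName Γ P → HSName Γ P → P → Prop} {p : P}
    (hmono : ∀ {u y p q}, Φ u y p → q ≤ p → Φ u y q)
    (hcongr : ∀ {u u' y p}, Φ u y p → feq u.1 u'.1 p → Φ u' y p)
    (hu : fmem u.1 x.1 p) (hy : Φ u y p) :
    Dn (fun r => ∃ y' : HSName Γ P, fmem y'.1 (coll x Φ).1 r ∧ Φ u y' r) p := by
  refine Dn.imp hu ?_
  rintro r hr ⟨i, _, e⟩
  have h1 : Φ (x.elem i) y r := hcongr (hmono hy hr) e
  have h2 := wit_spec (Φ := fun y => Φ (x.elem i) y r) h1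
  refine ⟨_, ?_, hcongr h2 e.symm⟩
  exact fmem.intro (x := collN x Φ) (i, r, 1) trivial (feq.of_eq (one_smul Γ _).symm r)

lemma frc.congr_snoc2 {n : ℕ} {φ : setLang.BoundedFormula Empty (n + 2)}
    {xs : Fin n → HSName Γ P} {u u' y : HSName Γ P} {p : P}
    (h : frc φ (Fin.snoc (Fin.snoc xs u) y) p) (e : feq u.1 u'.1 p) :
    frc φ (Fin.snoc (Fin.snoc xs u') y) p := by
  apply h.congr
  intro i
  refine Fin.lastCases ?_ (fun j => ?_) i
  · simp [feq.refl]
  · refine Fin.lastCases ?_ (fun k => ?_) j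
    · simpa using e
    · simp [feq.refl]

lemma frc.smul_snoc2 {n : ℕ} {φ : setLang.BoundedFormula Empty (n + 2)}
    {xs : Fin n → HSName Γ P} {u y : HSName Γ P} {p : P} {g : Γ} (hg : ∀ i, g ∈ sym Γ (xs i).1)
    (h : frc φ (Fin.snoc (Fin.snoc xs u) y) p) :
    frc φ (Fin.snoc (Fin.snoc xs (g • u)) (g • y)) (g • p) := by
  have := h.smul g
  rw [Pool.Agent.Lib.MP_e3c3cf_lc.smul_snoc, Pool.Agent.Lib.MP_e3c3cf_lc.smul_snoc] at this
  apply this.congr
  intro i
  refine Fin.lastCases ?_ (fun j => ?_) i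
  · simp [feq.refl]
  · refine Fin.lastCases ?_ (fun k => ?_) j
    · simp [feq.refl]
    · simpa using hg k _

/-- The predicate `∃ u ∈ x, φ(ps, u, v)`. -/
def imagePred {n : ℕ} (φ : setLang.BoundedFormula Empty (n + 2)) (ps : Fin n → HSName Γ P)
    (x : HSName Γ P) : SPred Γ P where
  Φ v p := Dn (fun r => ∃ u : HSName Γ P, fmem u.1 x.1 r ∧ frc φ (Fin.snoc (Fin.snoc ps u) v) r) p
  mono h hq := h.mono hq
  reg h := h.of_dn
  congr h e := h.imp fun _ hr ⟨u, h1, h2⟩ => ⟨u, h1, h2.congr_snoc (e.mono hr)⟩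
  T := {g : Γ | ∀ i, g ∈ sym Γ (ps i).1} ∩ sym Γ x.1
  T_mem := Filter.inter_mem (tuple_sym_mem ps) x.2.sym_mem
  T_inv _ hg := ⟨fun i => inv_mem_sym (hg.1 i), inv_mem_sym hg.2⟩
  smul g hg _ _ h := h.smul g fun _ ⟨u, h1, h2⟩ =>
    ⟨g • u, fmem_smul_of_sym hg.2 h1, h2.smul_snoc2 hg.1⟩

noncomputable def repl {n : ℕ} (φ : setLang.BoundedFormula Empty (n + 2))
    (ps : Fin n → HSName Γ P) (x : HSName Γ P) : HSName Γ P :=
  sep (coll x fun u y p => frc φ (Fin.snoc (Fin.snoc ps u) y) p) (imagePred φ ps x)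

end Pool.Agent.Lib.MP_e3c3cf_lc
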